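import Pool.Agent.Helper353.Oct.Quart

/-!
The octopus inequality and the doubling inequality for interchange forms.
-/

open scoped BigOperators

namespace Pool.Agent.Helper353.Oct

open Equiv

variable {α : Type*} [Fintype α] [DecidableEq α]

/-- the energy of a transposition -/
noncomputable def DD (f : Perm α → ℝ) (a b : α) : ℝ := ∑ x, (f (swap a b * x) - f x) ^ 2

lemma DD_nonneg (f : Perm α → ℝ) (a b : α) : 0 ≤ DD f a b := Finset.sum_nonneg fun _ _ => sq_nonneg _

lemma DD_symm (f : Perm α → ℝ) (a b : α) : DD f a b = DD f b a := by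
  unfold DD; rw [swap_comm]

lemma DD_self (f : Perm α → ℝ) (a : α) : DD f a a = 0 := by
  unfold DD
  have h : (swap a a : Perm α) = 1 := swap_self a
  refine Finset.sum_eq_zero fun x _ => ?_
  rw [h, one_mul, sub_self]
  norm_num

lemma ps_one (f : Perm α → ℝ) : ps f 1 = ∑ x, f x ^ 2 := by
  unfold ps
  exact Finset.sum_congr rfl fun x _ => by rw [one_mul, pow_two]

lemma DD_eq (f : Perm α → ℝ) (a b : α) : DD f a b = 2 * ps f 1 - 2 * ps f (swap a b) := by
  have h1 := ip_eq f (swap a b) (swap a b)
  rw [swap_inv, swap_mul_self] at h1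
  have e : ∀ x, (f (swap a b * x) - f x) ^ 2 =
      f (swap a b * x) * f (swap a b * x) + f x ^ 2 - 2 * (f (swap a b * x) * f x) := fun x => by
    ring
  unfold DD
  simp_rw [e]
  rw [Finset.sum_sub_distrib, Finset.sum_add_distrib, h1, ← ps_one, ← Finset.mul_sum]
  unfold ps
  ring

lemma quart_nonneg (f : Perm α → ℝ) (c : α → ℝ) (hc : ∀ y, 0 ≤ c y) (o : α) (ho : c o = 0) :
    ∑ x, (∑ i, ∑ j, c i * c j * xx f o i j x) ^ 2 ≤
      (∑ i, ∑ j, c i * c j * al i j) ^ 2 * ps f 1 := by
  rw [← sub_nonneg]
  have h1 : (∑ i, ∑ j, c i * c j * al i j) ^ 2 * ps f 1 -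
      ∑ x, (∑ i, ∑ j, c i * c j * xx f o i j x) ^ 2 =
      ∑ i, ∑ j, ∑ k, ∑ l, c i * c j * c k * c l * dd f o i j k l := by
    have e1 : (∑ i, ∑ j, c i * c j * al i j) ^ 2 * ps f 1 =
        ∑ i, ∑ j, ∑ k, ∑ l, c i * c j * c k * c l * (al i j * al k l * ps f 1) := by
      rw [pow_two, Finset.sum_mul, Finset.sum_mul]
      refine Finset.sum_congr rfl fun i _ => ?_
      rw [Finset.sum_mul, Finset.sum_mul]
      refine Finset.sum_congr rfl fun j _ => ?_
      rw [Finset.mul_sum, Finset.sum_mul]
      refine Finset.sum_congr rfl fun k _ => ?_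
      rw [Finset.mul_sum, Finset.sum_mul]
      refine Finset.sum_congr rfl fun l _ => ?_
      ring
    have e2 : ∑ x, (∑ i, ∑ j, c i * c j * xx f o i j x) ^ 2 =
        ∑ i, ∑ j, ∑ k, ∑ l, c i * c j * c k * c l * (∑ x, xx f o i j x * xx f o k l x) := by
      have e3 : ∀ x, (∑ i, ∑ j, c i * c j * xx f o i j x) ^ 2 =
          ∑ i, ∑ j, ∑ k, ∑ l, c i * c j * c k * c l * (xx f o i j x * xx f o k l x) := by
        intro x
        rw [pow_two, Finset.sum_mul]
        refine Finset.sum_congr rfl fun i _ => ?_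
        rw [Finset.sum_mul]
        refine Finset.sum_congr rfl fun j _ => ?_
        rw [Finset.mul_sum]
        refine Finset.sum_congr rfl fun k _ => ?_
        rw [Finset.mul_sum]
        refine Finset.sum_congr rfl fun l _ => ?_
        ring
      simp_rw [e3]
      rw [Finset.sum_comm]
      refine Finset.sum_congr rfl fun i _ => ?_
      rw [Finset.sum_comm]
      refine Finset.sum_congr rfl fun j _ => ?_
      rw [Finset.sum_comm]
      refine Finset.sum_congr rfl fun k _ => ?_
      rw [Finset.sum_comm]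
      refine Finset.sum_congr rfl fun l _ => ?_
      rw [Finset.mul_sum]
    rw [e1, e2]
    simp only [← Finset.sum_sub_distrib]
    refine Finset.sum_congr rfl fun i _ => Finset.sum_congr rfl fun j _ =>
      Finset.sum_congr rfl fun k _ => Finset.sum_congr rfl fun l _ => ?_
    unfold dd
    ring
  have h2 : ∑ i, ∑ j, ∑ k, ∑ l, c i * c j * c k * c l * dd f o i j k l =
      ∑ i, ∑ j, ∑ k, ∑ l, c i * c j * c k * c l * dd f o i k j l := by
    refine Finset.sum_congr rfl fun i _ => ?_
    rw [Finset.sum_comm]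
    refine Finset.sum_congr rfl fun j _ => Finset.sum_congr rfl fun k _ =>
      Finset.sum_congr rfl fun l _ => ?_
    ring
  have h3 : ∑ i, ∑ j, ∑ k, ∑ l, c i * c j * c k * c l * dd f o i k j l =
      ∑ i, ∑ j, ∑ k, ∑ l, c i * c j * c k * c l * dd f o i l j k := by
    refine Finset.sum_congr rfl fun i _ => Finset.sum_congr rfl fun j _ => ?_
    rw [Finset.sum_comm]
    refine Finset.sum_congr rfl fun k _ => Finset.sum_congr rfl fun l _ => ?_
    ring
  have h4 : 3 * ∑ i, ∑ j, ∑ k, ∑ l, c i * c j * c k * c l * dd f o i j k l =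
      ∑ i, ∑ j, ∑ k, ∑ l, c i * c j * c k * c l * SS f o i j k l := by
    have e4 : ∑ i, ∑ j, ∑ k, ∑ l, c i * c j * c k * c l * SS f o i j k l =
        ∑ i, ∑ j, ∑ k, ∑ l, c i * c j * c k * c l * dd f o i j k l +
        ∑ i, ∑ j, ∑ k, ∑ l, c i * c j * c k * c l * dd f o i k j l +
        ∑ i, ∑ j, ∑ k, ∑ l, c i * c j * c k * c l * dd f o i l j k := by
      simp only [← Finset.sum_add_distrib]
      refine Finset.sum_congr rfl fun i _ => Finset.sum_congr rfl fun j _ =>
        Finset.sum_congr rfl fun k _ => Finset.sum_congr rfl fun l _ => ?_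
      unfold SS
      ring
    rw [e4, ← h3, ← h2]
    ring
  have h5 : 0 ≤ ∑ i, ∑ j, ∑ k, ∑ l, c i * c j * c k * c l * SS f o i j k l := by
    refine Finset.sum_nonneg fun i _ => Finset.sum_nonneg fun j _ =>
      Finset.sum_nonneg fun k _ => Finset.sum_nonneg fun l _ => ?_
    by_cases hi : o = i
    · subst hi; rw [ho]; simp
    by_cases hj : o = j
    · subst hj; rw [ho]; simp
    by_cases hk : o = k
    · subst hk; rw [ho]; simp
    by_cases hl : o = l
    · subst hl; rw [ho]; simp
    have := SS_nonneg f hi hj hk hl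
    have := hc i
    have := hc j
    have := hc k
    have := hc l
    positivity
  rw [h1]
  linarith

lemma octopus_aux (f : Perm α → ℝ) (c : α → ℝ) (hc : ∀ y, 0 ≤ c y) (o : α) (ho : c o = 0) :
    ∑ y, ∑ z, c y * c z * DD f y z ≤ 2 * (∑ y, c y) * ∑ y, c y * DD f o y := by
  set a := ∑ i, ∑ j, c i * c j * al i j with ha
  have ha0 : 0 ≤ a := Finset.sum_nonneg fun i _ => Finset.sum_nonneg fun j _ => by
    have := hc i
    have := hc j
    have : 0 ≤ al i j := by unfold al; split_ifs <;> norm_num
    positivity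
  have hp0 : 0 ≤ ps f 1 := by
    rw [ps_one]
    exact Finset.sum_nonneg fun _ _ => sq_nonneg _
  set X : Perm α → ℝ := fun x => ∑ i, ∑ j, c i * c j * xx f o i j x with hX
  have h1 : ∑ x, X x ^ 2 ≤ a ^ 2 * ps f 1 := quart_nonneg f c hc o ho
  have h2 : ∑ x, X x * f x ≤ a * ps f 1 := by
    have h3 := Finset.sum_mul_sq_le_sq_mul_sq Finset.univ X f
    rw [← ps_one f] at h3
    have h4 : (∑ x, X x * f x) ^ 2 ≤ (a * ps f 1) ^ 2 := by
      refine h3.trans ?_
      have := mul_le_mul_of_nonneg_right h1 hp0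
      nlinarith
    exact abs_le_of_sq_le_sq' h4 (by positivity) |>.2
  have h3 : a * ps f 1 - ∑ x, X x * f x =
      ∑ i, ∑ j, c i * c j * ((DD f o i + DD f o j - DD f i j) / 4) := by
    have e1 : ∑ x, X x * f x = ∑ i, ∑ j, c i * c j * ∑ x, xx f o i j x * f x := by
      simp only [hX]
      simp_rw [Finset.sum_mul]
      rw [Finset.sum_comm]
      refine Finset.sum_congr rfl fun i _ => ?_
      rw [Finset.sum_comm]
      refine Finset.sum_congr rfl fun j _ => ?_
      rw [Finset.mul_sum]
      exact Finset.sum_congr rfl fun x _ => by ring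
    rw [e1, ha, Finset.sum_mul, ← Finset.sum_sub_distrib]
    refine Finset.sum_congr rfl fun i _ => ?_
    rw [Finset.sum_mul, ← Finset.sum_sub_distrib]
    refine Finset.sum_congr rfl fun j _ => ?_
    have e2 : al i j * ps f 1 - ∑ x, xx f o i j x * f x =
        (DD f o i + DD f o j - DD f i j) / 4 := by
      by_cases hij : i = j
      · subst hij
        rw [DD_self, DD_eq f o i]
        simp only [al, xx, if_true]
        have : ∑ x, f (swap o i * x) * f x = ps f (swap o i) := rfl
        rw [this]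
        ring
      · rw [DD_eq, DD_eq, DD_eq]
        simp only [al, xx, if_neg hij]
        have e3 : ∀ x : Perm α, (f (swap o i * x) + f (swap o j * x) - f (swap i j * x)) / 2 * f x =
            (f (swap o i * x) * f x + f (swap o j * x) * f x - f (swap i j * x) * f x) / 2 :=
          fun x => by ring
        simp_rw [e3]
        rw [← Finset.sum_div, Finset.sum_sub_distrib, Finset.sum_add_distrib]
        have e4 : ∀ g : Perm α, ∑ x, f (g * x) * f x = ps f g := fun g => rfl
        rw [e4, e4, e4]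
        ring
    rw [← e2]
    ring
  have h4 : 0 ≤ ∑ i, ∑ j, c i * c j * ((DD f o i + DD f o j - DD f i j) / 4) := by
    rw [← h3]; linarith
  have h5 : ∑ i, ∑ j, c i * c j * ((DD f o i + DD f o j - DD f i j) / 4) =
      (2 * (∑ y, c y) * ∑ y, c y * DD f o y - ∑ y, ∑ z, c y * c z * DD f y z) / 4 := by
    have e1 : ∑ i, ∑ j, c i * c j * DD f o i = (∑ y, c y) * ∑ y, c y * DD f o y := by
      rw [mul_comm, Finset.sum_mul]
      refine Finset.sum_congr rfl fun i _ => ?_
      rw [Finset.mul_sum]
      exact Finset.sum_congr rfl fun j _ => by ring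
    have e2 : ∑ i, ∑ j, c i * c j * DD f o j = (∑ y, c y) * ∑ y, c y * DD f o y := by
      rw [Finset.sum_mul]
      refine Finset.sum_congr rfl fun i _ => ?_
      rw [Finset.mul_sum]
      exact Finset.sum_congr rfl fun j _ => by ring
    have e3 : ∑ i, ∑ j, c i * c j * ((DD f o i + DD f o j - DD f i j) / 4) =
        (∑ i, ∑ j, c i * c j * DD f o i + ∑ i, ∑ j, c i * c j * DD f o j -
          ∑ i, ∑ j, c i * c j * DD f i j) / 4 := by
      rw [← Finset.sum_add_distrib, ← Finset.sum_sub_distrib, Finset.sum_div]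
      refine Finset.sum_congr rfl fun i _ => ?_
      rw [← Finset.sum_add_distrib, ← Finset.sum_sub_distrib, Finset.sum_div]
      exact Finset.sum_congr rfl fun j _ => by ring
    rw [e3, e1, e2]
    ring
  rw [h5] at h4
  linarith

/-- **The octopus inequality** of Caputo, Liggett and Richthammer, the centre may carry weight. -/
theorem octopus (f : Perm α → ℝ) (c : α → ℝ) (hc : ∀ y, 0 ≤ c y) (o : α) :
    ∑ y, ∑ z, c y * c z * DD f y z ≤ 2 * (∑ y, c y) * ∑ y, c y * DD f o y := by
  set c' : α → ℝ := fun y => if y = o then 0 else c y with hc'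
  have h1 := octopus_aux f c' (fun y => by
    simp only [hc']; split_ifs; exacts [le_rfl, hc y]) o (by simp [hc'])
  have e0 : ∀ y, c y = c' y + if y = o then c o else 0 := by
    intro y
    simp only [hc']
    split_ifs with h
    · rw [h]; ring
    · ring
  have e1 : ∑ y, c y * DD f o y = ∑ y, c' y * DD f o y := by
    refine Finset.sum_congr rfl fun y _ => ?_
    rw [e0 y, add_mul, ite_mul, zero_mul]
    split_ifs with h
    · rw [h, DD_self]; ring
    · ring
  have e2 : ∑ y, c y = ∑ y, c' y + c o := by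
    rw [Finset.sum_congr rfl (fun y _ => e0 y), Finset.sum_add_distrib, Finset.sum_ite_eq']
    simp
  have e3 : ∀ y, ∑ z, c z * DD f y z = ∑ z, c' z * DD f y z + c o * DD f y o := by
    intro y
    have : ∀ z, c z * DD f y z = c' z * DD f y z + if z = o then c o * DD f y o else 0 := by
      intro z
      rw [e0 z]
      split_ifs with h
      · rw [h]; ring
      · ring
    rw [Finset.sum_congr rfl (fun z _ => this z), Finset.sum_add_distrib, Finset.sum_ite_eq']
    simp
  have e4 : ∑ y, ∑ z, c y * c z * DD f y z =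
      ∑ y, ∑ z, c' y * c' z * DD f y z + 2 * c o * ∑ y, c' y * DD f o y := by
    have e5 : ∀ y, ∑ z, c y * c z * DD f y z =
        c y * (∑ z, c' z * DD f y z + c o * DD f y o) := by
      intro y
      rw [← e3, Finset.mul_sum]
      exact Finset.sum_congr rfl fun z _ => by ring
    rw [Finset.sum_congr rfl (fun y _ => e5 y)]
    have e6 : ∀ y, c y * (∑ z, c' z * DD f y z + c o * DD f y o) =
        c' y * (∑ z, c' z * DD f y z + c o * DD f y o) +
          if y = o then c o * (∑ z, c' z * DD f o z + c o * DD f o o) else 0 := by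
      intro y
      rw [e0 y]
      split_ifs with h
      · rw [h]; ring
      · ring
    rw [Finset.sum_congr rfl (fun y _ => e6 y), Finset.sum_add_distrib, Finset.sum_ite_eq']
    simp only [Finset.mem_univ, if_true, mul_add, Finset.sum_add_distrib, DD_self, mul_zero,
      add_zero]
    have e7 : ∑ y, c' y * (c o * DD f y o) = c o * ∑ z, c' z * DD f o z := by
      rw [Finset.mul_sum]
      exact Finset.sum_congr rfl fun y _ => by rw [DD_symm f y o]; ring
    rw [e7]
    have e8 : ∑ y, c' y * ∑ z, c' z * DD f y z = ∑ y, ∑ z, c' y * c' z * DD f y z := by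
      refine Finset.sum_congr rfl fun y _ => ?_
      rw [Finset.mul_sum]
      exact Finset.sum_congr rfl fun z _ => by ring
    rw [e8]
    ring
  rw [e1, e2, e4]
  linarith

/-- the doubling inequality: the interchange form of `P ^ 2` is at most twice that of `P` -/
theorem doubling (f : Perm α → ℝ) (P : α → α → ℝ) (hP : ∀ x y, 0 ≤ P x y)
    (hsum : ∀ x, ∑ y, P x y = 1) :
    ∑ y, ∑ z, (∑ x, P x y * P x z) * DD f y z ≤ 2 * ∑ x, ∑ y, P x y * DD f x y := by
  have h1 : ∀ x, ∑ y, ∑ z, P x y * P x z * DD f y z ≤ 2 * ∑ y, P x y * DD f x y := by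
    intro x
    have := octopus f (P x) (hP x) x
    rw [hsum, mul_one] at this
    exact this
  have h2 : ∑ y, ∑ z, (∑ x, P x y * P x z) * DD f y z =
      ∑ x, ∑ y, ∑ z, P x y * P x z * DD f y z := by
    simp_rw [Finset.sum_mul]
    rw [Finset.sum_comm]
    rw [Finset.sum_congr rfl (fun z _ => Finset.sum_comm)]
    rw [Finset.sum_comm]
    refine Finset.sum_congr rfl fun x _ => ?_
    rw [Finset.sum_comm]
  rw [h2, Finset.mul_sum]
  exact Finset.sum_le_sum fun x _ => h1 x

end Pool.Agent.Helper353.Oct
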