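import Pool.Agent.Helper353.Oct.Semi
import Pool.Agent.Helper353.Oct.Octopus

/-!
Comparison of the interchange form of a graph with that of the complete graph.
-/

open scoped BigOperators Matrix Topology
open Filter

namespace Pool.Agent.Helper353.Oct

open Equiv

variable {α : Type*} [Fintype α] [DecidableEq α]

/-- the interchange form of the heat kernel -/
noncomputable def Ph (Q : Matrix α α ℝ) (f : Perm α → ℝ) (t : ℝ) : ℝ :=
  ∑ x, ∑ y, Kt Q t x y * DD f x y

lemma Ph_double {Q : Matrix α α ℝ} (h : Gen Q) (f : Perm α → ℝ) {t : ℝ} (ht : 0 ≤ t) :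
    Ph Q f (2 * t) ≤ 2 * Ph Q f t := by
  have h1 := doubling f (fun x y => Kt Q t x y) (Kt_nonneg h ht) (Kt_row h t)
  unfold Ph
  have h2 : ∀ y z, ∑ x, Kt Q t x y * Kt Q t x z = Kt Q (2 * t) y z := by
    intro y z
    rw [two_mul, Kt_add, Matrix.mul_apply]
    exact Finset.sum_congr rfl fun x _ => by rw [Kt_symm h t x y]
  simp_rw [h2] at h1
  exact h1

lemma Ph_iter {Q : Matrix α α ℝ} (h : Gen Q) (f : Perm α → ℝ) {t : ℝ} (ht : 0 ≤ t) (k : ℕ) :
    Ph Q f t ≤ 2 ^ k * Ph Q f (t / 2 ^ k) := by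
  induction k with
  | zero => simp
  | succ k ih =>
    have h1 := Ph_double h f (t := t / 2 ^ (k + 1)) (by positivity)
    have h2 : 2 * (t / 2 ^ (k + 1)) = t / 2 ^ k := by
      rw [pow_succ]; field_simp
    rw [h2] at h1
    have h3 : (2 : ℝ) ^ k * Ph Q f (t / 2 ^ k) ≤ 2 ^ k * (2 * Ph Q f (t / 2 ^ (k + 1))) :=
      mul_le_mul_of_nonneg_left h1 (by positivity)
    refine ih.trans (h3.trans (le_of_eq ?_))
    rw [pow_succ]; ring

lemma Ph_zero (Q : Matrix α α ℝ) (f : Perm α → ℝ) : Ph Q f 0 = 0 := by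
  unfold Ph
  rw [Kt_zero]
  refine Finset.sum_eq_zero fun x _ => Finset.sum_eq_zero fun y _ => ?_
  rw [Matrix.one_apply]
  split_ifs with hxy
  · rw [hxy, DD_self, mul_zero]
  · rw [zero_mul]

lemma Ph_hasDerivAt (Q : Matrix α α ℝ) (f : Perm α → ℝ) :
    HasDerivAt (Ph Q f) (∑ x, ∑ y, Q x y * DD f x y) 0 := by
  unfold Ph
  have h1 : ∀ x y, HasDerivAt (fun t => Kt Q t x y * DD f x y) (Q x y * DD f x y) 0 := by
    intro x y
    have := (Kt_hasDerivAt Q 0 x y).mul_const (DD f x y)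
    rwa [Kt_zero, one_mul] at this
  exact HasDerivAt.fun_sum fun x _ => HasDerivAt.fun_sum fun y _ => h1 x y

/-- the interchange form of the heat kernel is at most `t` times that of the generator -/
theorem Ph_le {Q : Matrix α α ℝ} (h : Gen Q) (f : Perm α → ℝ) {t : ℝ} (ht : 0 ≤ t) :
    Ph Q f t ≤ t * ∑ x, ∑ y, Q x y * DD f x y := by
  rcases ht.eq_or_lt with rfl | ht
  · rw [Ph_zero, zero_mul]
  have h1 := (Ph_hasDerivAt Q f).tendsto_slope_zero
  rw [Ph_zero] at h1
  have h2 : Tendsto (fun k : ℕ => t / 2 ^ k) atTop (𝓝[≠] 0) := by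
    rw [tendsto_nhdsWithin_iff]
    constructor
    · have : Tendsto (fun k : ℕ => t * ((1 / 2 : ℝ)) ^ k) atTop (𝓝 (t * 0)) :=
        (tendsto_pow_atTop_nhds_zero_of_lt_one (by norm_num) (by norm_num)).const_mul t
      rw [mul_zero] at this
      refine this.congr fun k => ?_
      rw [one_div, inv_pow]
      rfl
    · exact Eventually.of_forall fun k => by
        simp only [Set.mem_compl_iff, Set.mem_singleton_iff]
        positivity
  have h3 := (h1.comp h2).const_mul t
  refine ge_of_tendsto' h3 fun k => ?_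
  have h4 := Ph_iter h f ht.le k
  refine h4.trans (le_of_eq ?_)
  simp only [Function.comp_apply, zero_add, sub_zero, smul_eq_mul]
  field_simp

/-- a lower bound for the heat kernel at twice the mixing time -/
lemma kernel_lower {Q : Matrix α α ℝ} (h : Gen Q) {t : ℝ} (ht : 0 ≤ t)
    (hn : 0 < Fintype.card α)
    (hmix : ∀ x, 1 / 2 * ∑ y, |Kt Q t x y - 1 / (Fintype.card α : ℝ)| ≤ 1 / 4) (x y : α) :
    1 / (4 * (Fintype.card α : ℝ)) ≤ Kt Q (2 * t) x y := by
  have hn' : (0 : ℝ) < Fintype.card α := by exact_mod_cast hn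
  set m : α → ℝ := fun z => min (Kt Q t x z) (Kt Q t y z) with hm
  have h1 : 1 / 2 ≤ ∑ z, m z := by
    have e1 : ∀ z, m z = (Kt Q t x z + Kt Q t y z - |Kt Q t x z - Kt Q t y z|) / 2 := by
      intro z
      have e0 : ∀ a b : ℝ, min a b = (a + b - |a - b|) / 2 := by
        intro a b
        rcases le_total a b with hle | hle
        · rw [min_eq_left hle, abs_of_nonpos (by linarith)]; ring
        · rw [min_eq_right hle, abs_of_nonneg (by linarith)]; ring
      exact e0 _ _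
    simp_rw [e1]
    rw [← Finset.sum_div, Finset.sum_sub_distrib, Finset.sum_add_distrib, Kt_row h, Kt_row h]
    have e2 : ∑ z, |Kt Q t x z - Kt Q t y z| ≤
        ∑ z, |Kt Q t x z - 1 / (Fintype.card α : ℝ)| +
          ∑ z, |Kt Q t y z - 1 / (Fintype.card α : ℝ)| := by
      rw [← Finset.sum_add_distrib]
      refine Finset.sum_le_sum fun z _ => ?_
      have := abs_sub (Kt Q t x z - 1 / (Fintype.card α : ℝ)) (Kt Q t y z - 1 / (Fintype.card α : ℝ))
      rwa [sub_sub_sub_cancel_right] at this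
    have e3 := hmix x
    have e4 := hmix y
    linarith
  have h2 : (∑ z, m z) ^ 2 ≤ (Fintype.card α : ℝ) * ∑ z, m z ^ 2 := by
    have := sq_sum_le_card_mul_sum_sq (s := Finset.univ) (f := m)
    rwa [Finset.card_univ] at this
  have h3 : ∑ z, m z ^ 2 ≤ Kt Q (2 * t) x y := by
    rw [two_mul, Kt_add, Matrix.mul_apply]
    refine Finset.sum_le_sum fun z _ => ?_
    have e1 := Kt_nonneg h ht x z
    have e2 := Kt_nonneg h ht y z
    have e3 : m z ≤ Kt Q t x z := min_le_left _ _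
    have e4 : m z ≤ Kt Q t y z := min_le_right _ _
    have e5 : 0 ≤ m z := le_min e1 e2
    rw [Kt_symm h t z y, pow_two]
    exact mul_le_mul e3 e4 e5 e1
  have h4 : (1 / 2 : ℝ) ^ 2 ≤ (∑ z, m z) ^ 2 := pow_le_pow_left₀ (by norm_num) h1 2
  rw [div_le_iff₀ (by positivity)]
  nlinarith

/-- comparison with the complete graph -/
theorem compare {Q : Matrix α α ℝ} (h : Gen Q) {t : ℝ} (ht : 0 ≤ t) (hn : 0 < Fintype.card α)
    (hmix : ∀ x, 1 / 2 * ∑ y, |Kt Q t x y - 1 / (Fintype.card α : ℝ)| ≤ 1 / 4)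
    (f : Perm α → ℝ) :
    ∑ x, ∑ y, DD f x y ≤ 8 * (Fintype.card α : ℝ) * t * ∑ x, ∑ y, Q x y * DD f x y := by
  have hn' : (0 : ℝ) < Fintype.card α := by exact_mod_cast hn
  have h1 := Ph_le h f (t := 2 * t) (by linarith)
  have h2 : 1 / (4 * (Fintype.card α : ℝ)) * ∑ x, ∑ y, DD f x y ≤ Ph Q f (2 * t) := by
    unfold Ph
    rw [Finset.mul_sum]
    refine Finset.sum_le_sum fun x _ => ?_
    rw [Finset.mul_sum]
    refine Finset.sum_le_sum fun y _ => ?_
    exact mul_le_mul_of_nonneg_right (kernel_lower h ht hn hmix x y) (DD_nonneg f x y)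
  have h3 := h2.trans h1
  rw [one_div, inv_mul_le_iff₀ (by positivity)] at h3
  linarith

end Pool.Agent.Helper353.Oct
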