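import Pool.Agent.Helper353.Oct.L2c

/-!
Convergence of the random walk on a connected graph and the final comparison.
-/

open scoped BigOperators Matrix Topology
open Filter

namespace Pool.Agent.Helper353.Oct

open Equiv

variable {X : Type*} [Fintype X] [DecidableEq X]

lemma osc_step {K : X → X → ℝ} {δ : ℝ} (hK : ∀ x z, δ ≤ K x z) (hsum : ∀ x, ∑ z, K x z = 1)
    {f : X → ℝ} {c : ℝ} (hf : ∀ x x', f x - f x' ≤ c) (x x' : X) :
    ∑ z, K x z * f z - ∑ z, K x' z * f z ≤ (1 - Fintype.card X * δ) * c := by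
  obtain ⟨z0, -, hz0⟩ := Finset.exists_max_image Finset.univ f ⟨x, Finset.mem_univ x⟩
  obtain ⟨w0, -, hw0⟩ := Finset.exists_min_image Finset.univ f ⟨x, Finset.mem_univ x⟩
  have hs : ∀ y, ∑ z, (K y z - δ) = 1 - Fintype.card X * δ := by
    intro y
    rw [Finset.sum_sub_distrib, hsum, Finset.sum_const, Finset.card_univ, nsmul_eq_mul]
  have h0 : 0 ≤ 1 - Fintype.card X * δ := by
    rw [← hs x]
    exact Finset.sum_nonneg fun z _ => sub_nonneg.2 (hK x z)
  have h1 : ∑ z, (K x z - δ) * f z ≤ (1 - Fintype.card X * δ) * f z0 := by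
    rw [← hs x, Finset.sum_mul]
    exact Finset.sum_le_sum fun z _ =>
      mul_le_mul_of_nonneg_left (hz0 z (Finset.mem_univ z)) (sub_nonneg.2 (hK x z))
  have h2 : (1 - Fintype.card X * δ) * f w0 ≤ ∑ z, (K x' z - δ) * f z := by
    rw [← hs x', Finset.sum_mul]
    exact Finset.sum_le_sum fun z _ =>
      mul_le_mul_of_nonneg_left (hw0 z (Finset.mem_univ z)) (sub_nonneg.2 (hK x' z))
  have h3 : ∑ z, K x z * f z - ∑ z, K x' z * f z =
      ∑ z, (K x z - δ) * f z - ∑ z, (K x' z - δ) * f z := by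
    rw [← Finset.sum_sub_distrib, ← Finset.sum_sub_distrib]
    exact Finset.sum_congr rfl fun z _ => by ring
  have h4 := mul_le_mul_of_nonneg_left (hf z0 w0) h0
  rw [h3]
  nlinarith

/-- a heat kernel with positive entries converges to the uniform distribution -/
lemma exists_mix {Q : Matrix X X ℝ} (h : Gen Q) (hX : 0 < Fintype.card X)
    (hpos : ∀ x y, 0 < Kt Q 1 x y) :
    ∃ t : ℝ, 0 ≤ t ∧ ∀ x, 1 / 2 * ∑ y, |Kt Q t x y - 1 / (Fintype.card X : ℝ)| ≤ 1 / 4 := by
  have hX' : (0 : ℝ) < Fintype.card X := by exact_mod_cast hX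
  have hne : Nonempty X := Fintype.card_pos_iff.1 hX
  obtain ⟨p0, -, hp0⟩ := Finset.exists_min_image (Finset.univ : Finset (X × X))
    (fun p => Kt Q 1 p.1 p.2) Finset.univ_nonempty
  set δ := Kt Q 1 p0.1 p0.2 with hδ
  have hδ0 : 0 < δ := hpos _ _
  have hK : ∀ x z, δ ≤ Kt Q 1 x z := fun x z => hp0 (x, z) (Finset.mem_univ _)
  set ρ := 1 - Fintype.card X * δ with hρ
  have hρ1 : ρ < 1 := by
    rw [hρ]
    have : 0 < (Fintype.card X : ℝ) * δ := by positivity
    linarith
  have hρ0 : 0 ≤ ρ := by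
    obtain ⟨x⟩ := hne
    have : ∑ z, (Kt Q 1 x z - δ) = ρ := by
      rw [Finset.sum_sub_distrib, Kt_row h, Finset.sum_const, Finset.card_univ, nsmul_eq_mul]
    rw [← this]
    exact Finset.sum_nonneg fun z _ => sub_nonneg.2 (hK x z)
  have h1 : ∀ m : ℕ, ∀ y x x', Kt Q m x y - Kt Q m x' y ≤ ρ ^ m := by
    intro m
    induction m with
    | zero =>
      intro y x x'
      rw [Nat.cast_zero, Kt_zero, pow_zero, Matrix.one_apply, Matrix.one_apply]
      split_ifs <;> norm_num
    | succ m ih =>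
      intro y x x'
      have e1 : ∀ x, Kt Q ((m + 1 : ℕ) : ℝ) x y = ∑ z, Kt Q 1 x z * Kt Q m z y := by
        intro x
        have : ((m + 1 : ℕ) : ℝ) = 1 + (m : ℝ) := by push_cast; ring
        rw [this, Kt_add, Matrix.mul_apply]
      rw [e1, e1, pow_succ, mul_comm]
      exact osc_step (f := fun z => Kt Q m z y) hK (Kt_row h 1) (ih y) x x'
  have h2 : ∀ m : ℕ, ∀ x y, |Kt Q m x y - 1 / (Fintype.card X : ℝ)| ≤ ρ ^ m := by
    intro m x y
    have hcol : ∑ x', Kt Q m x' y = 1 := by
      rw [← Kt_row h (m : ℝ) y]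
      exact Finset.sum_congr rfl fun z _ => Kt_symm h _ _ _
    have e1 : Kt Q m x y - 1 / (Fintype.card X : ℝ) =
        (∑ x', (Kt Q m x y - Kt Q m x' y)) / (Fintype.card X : ℝ) := by
      rw [Finset.sum_sub_distrib, hcol, Finset.sum_const, Finset.card_univ, nsmul_eq_mul]
      field_simp
    have e2 : ∑ x', (Kt Q m x y - Kt Q m x' y) ≤ Fintype.card X * ρ ^ m := by
      refine (Finset.sum_le_sum fun x' _ => h1 m y x x').trans (le_of_eq ?_)
      rw [Finset.sum_const, Finset.card_univ, nsmul_eq_mul]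
    have e3 : -(Fintype.card X * ρ ^ m) ≤ ∑ x', (Kt Q m x y - Kt Q m x' y) := by
      have : ∑ x' : X, -(ρ ^ m) ≤ ∑ x', (Kt Q m x y - Kt Q m x' y) :=
        Finset.sum_le_sum fun x' _ => by
          have := h1 m y x' x
          linarith
      refine le_trans (le_of_eq ?_) this
      rw [Finset.sum_const, Finset.card_univ, nsmul_eq_mul]
      ring
    rw [e1, abs_le]
    constructor
    · rw [le_div_iff₀ hX']; linarith
    · rw [div_le_iff₀ hX']; linarith
  have h3 : Tendsto (fun m : ℕ => (Fintype.card X : ℝ) * ρ ^ m) atTop (𝓝 0) := by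
    have := (tendsto_pow_atTop_nhds_zero_of_lt_one hρ0 hρ1).const_mul (Fintype.card X : ℝ)
    rwa [mul_zero] at this
  obtain ⟨m, hm⟩ := (h3.eventually (gt_mem_nhds (show (0 : ℝ) < 1 / 2 by norm_num))).exists
  refine ⟨m, Nat.cast_nonneg m, fun x => ?_⟩
  have h4 : ∑ y, |Kt Q m x y - 1 / (Fintype.card X : ℝ)| ≤ Fintype.card X * ρ ^ m := by
    refine (Finset.sum_le_sum fun y _ => h2 m x y).trans (le_of_eq ?_)
    rw [Finset.sum_const, Finset.card_univ, nsmul_eq_mul]
  linarith

/-- positivity of the heat kernel along paths -/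
lemma Kt_pos {Q : Matrix X X ℝ} (h : Gen Q) {R : X → X → Prop}
    (hR : ∀ x y, R x y → 0 < Q x y) (x y : X) (hxy : Relation.ReflTransGen R x y) :
    0 < Kt Q 1 x y := by
  obtain ⟨D, hD0, hD⟩ := exists_bound Q
  set M : Matrix X X ℝ := Q + D • (1 : Matrix X X ℝ) with hM
  have hM0 : ∀ a b, 0 ≤ M a b := by
    intro a b
    rw [hM, Matrix.add_apply, Matrix.smul_apply, smul_eq_mul, Matrix.one_apply]
    split_ifs with hab
    · subst hab
      have := hD a
      linarith
    · have := h.off a b hab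
      linarith
  have hMR : ∀ a b, R a b → 0 < M a b := by
    intro a b hab
    rw [hM, Matrix.add_apply, Matrix.smul_apply, smul_eq_mul, Matrix.one_apply]
    have := hR a b hab
    split_ifs <;> nlinarith
  have hpow0 : ∀ k : ℕ, ∀ a b, 0 ≤ (M ^ k) a b := by
    intro k
    induction k with
    | zero =>
      intro a b
      rw [pow_zero, Matrix.one_apply]
      split_ifs <;> norm_num
    | succ k ih =>
      intro a b
      rw [pow_succ, Matrix.mul_apply]
      exact Finset.sum_nonneg fun z _ => mul_nonneg (ih a z) (hM0 z b)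
  have hex : ∃ k : ℕ, 0 < (M ^ k) x y := by
    induction hxy with
    | refl => exact ⟨0, by rw [pow_zero, Matrix.one_apply_eq]; norm_num⟩
    | tail _ hbc ih =>
      obtain ⟨k, hk⟩ := ih
      refine ⟨k + 1, ?_⟩
      rw [pow_succ, Matrix.mul_apply]
      refine Finset.sum_pos' (fun z _ => mul_nonneg (hpow0 k _ _) (hM0 _ _))
        ⟨_, Finset.mem_univ _, mul_pos hk (hMR _ _ hbc)⟩
  obtain ⟨k, hk⟩ := hex
  rw [Kt_eq Q D 1, Matrix.smul_apply, smul_eq_mul, one_smul]
  refine mul_pos (Real.exp_pos _) ?_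
  have h1 := exp_hasSum M x y
  have h2 : ((k.factorial : ℝ)⁻¹) * (M ^ k) x y ≤ NormedSpace.exp M x y := by
    refine le_hasSum h1 k fun j _ => ?_
    have := hpow0 j x y
    positivity
  have h3 : 0 < ((k.factorial : ℝ)⁻¹) * (M ^ k) x y := by positivity
  linarith

/-- the exponential of a reindexed matrix -/
lemma exp_reindex {Y : Type*} [Fintype Y] [DecidableEq Y] (e : X ≃ Y) {M : Matrix Y Y ℝ}
    {M' : Matrix X X ℝ} (h : ∀ x x', M (e x) (e x') = M' x x') (x x' : X) :
    NormedSpace.exp M (e x) (e x') = NormedSpace.exp M' x x' := by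
  have h1 : ∀ k : ℕ, ∀ x x', (M ^ k) (e x) (e x') = (M' ^ k) x x' := by
    intro k
    induction k with
    | zero =>
      intro x x'
      rw [pow_zero, pow_zero, Matrix.one_apply, Matrix.one_apply]
      simp only [EmbeddingLike.apply_eq_iff_eq]
    | succ k ih =>
      intro x x'
      rw [pow_succ, pow_succ, Matrix.mul_apply, Matrix.mul_apply, ← Equiv.sum_comp e]
      exact Finset.sum_congr rfl fun y _ => by rw [ih, h]
  have h2 := exp_hasSum M (e x) (e x')
  have h3 := exp_hasSum M' x x'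
  simp_rw [h1] at h2
  exact h2.unique h3

/-- the main estimate -/
theorem main_bound {α : Type*} [Fintype α] [DecidableEq α] {Q : Matrix α α ℝ} (h : Gen Q)
    {t : ℝ} (ht : 0 ≤ t) (hn : 2 ≤ Fintype.card α)
    (hmix : ∀ x, 1 / 2 * ∑ y, |Kt Q t x y - 1 / (Fintype.card α : ℝ)| ≤ 1 / 4) (g : Perm α) :
    1 / 2 * ∑ k, |Kt (IW (fun x y => Q x y)) (40 * t * Real.log (Fintype.card α)) g k -
      1 / (Fintype.card (Perm α) : ℝ)| ≤ 1 / 4 := by
  have hn' : (2 : ℝ) ≤ Fintype.card α := by exact_mod_cast hn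
  set n : ℝ := (Fintype.card α : ℝ) with hndef
  have hn0 : (0 : ℝ) < n := by linarith
  -- the mixing time is positive
  have htpos : 0 < t := by
    rcases ht.eq_or_lt with h0 | h0
    · exfalso
      obtain ⟨x⟩ : Nonempty α := Fintype.card_pos_iff.1 (by omega)
      have h1 := hmix x
      rw [← h0, Kt_zero] at h1
      have h2 : |(1 : Matrix α α ℝ) x x - 1 / n| ≤ ∑ y, |(1 : Matrix α α ℝ) x y - 1 / n| :=
        Finset.single_le_sum (f := fun y => |(1 : Matrix α α ℝ) x y - 1 / n|)
          (fun _ _ => abs_nonneg _) (Finset.mem_univ x)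
      obtain ⟨z, hz⟩ : ∃ z, z ≠ x := by
        have := Fintype.one_lt_card_iff_nontrivial.1 (by omega : 1 < Fintype.card α)
        exact exists_ne x
      have h3 : |(1 : Matrix α α ℝ) x x - 1 / n| + ∑ y ∈ Finset.univ.erase x,
          |(1 : Matrix α α ℝ) x y - 1 / n| = ∑ y, |(1 : Matrix α α ℝ) x y - 1 / n| :=
        Finset.add_sum_erase Finset.univ (fun y => |(1 : Matrix α α ℝ) x y - 1 / n|)
          (Finset.mem_univ x)
      have h4 : ∑ y ∈ Finset.univ.erase x, |(1 : Matrix α α ℝ) x y - 1 / n| =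
          (n - 1) * (1 / n) := by
        have e1 : ∀ y ∈ Finset.univ.erase x, |(1 : Matrix α α ℝ) x y - 1 / n| = 1 / n := by
          intro y hy
          rw [Matrix.one_apply_ne (Finset.ne_of_mem_erase hy).symm, zero_sub, abs_neg,
            abs_of_pos (by positivity)]
        rw [Finset.sum_congr rfl e1, Finset.sum_const, Finset.card_erase_of_mem (Finset.mem_univ x),
          Finset.card_univ, nsmul_eq_mul, Nat.cast_sub (by omega), hndef, Nat.cast_one]
      have h5 : |(1 : Matrix α α ℝ) x x - 1 / n| = 1 - 1 / n := by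
        rw [Matrix.one_apply_eq, abs_of_nonneg]
        have : 1 / n ≤ 1 := by rw [div_le_one hn0]; linarith
        linarith
      rw [← h3, h4, h5] at h1
      have h6 : (n - 1) * (1 / n) = 1 - 1 / n := by field_simp
      have h7 : 1 / n ≤ 1 / 2 := by
        rw [div_le_div_iff₀ hn0 (by norm_num)]; linarith
      linarith
    · exact h0
  have hlog : 0 < Real.log n := Real.log_pos (by linarith)
  set κ : ℝ := 1 / (8 * n * t) with hκ
  have hκ0 : 0 < κ := by positivity
  refine tv_bound h.off (κ := κ) hκ0.le ?_ (by positivity) ?_ g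
  · intro f
    have h1 := compare h ht (by omega) hmix f
    rw [hκ, one_div, inv_mul_le_iff₀ (by positivity)]
    exact h1
  · rw [← hndef]
    have e1 : 5 * Real.log n ≤ κ * (40 * t * Real.log n) * (n + 2) := by
      have e2 : κ * (40 * t * Real.log n) * (n + 2) = 5 * Real.log n * ((n + 2) / n) := by
        rw [hκ]; field_simp; norm_num
      rw [e2]
      have e3 : 1 ≤ (n + 2) / n := by rw [le_div_iff₀ hn0]; linarith
      nlinarith
    have e2 : Real.exp (-(κ * (40 * t * Real.log n) * (n + 2))) ≤ Real.exp (-(5 * Real.log n)) :=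
      Real.exp_le_exp.2 (by linarith)
    have e3 : Real.exp (-(5 * Real.log n)) = 1 / n ^ 5 := by
      rw [Real.exp_neg, show 5 * Real.log n = ((5 : ℕ) : ℝ) * Real.log n by norm_num,
        Real.exp_nat_mul, Real.exp_log hn0, one_div]
    rw [e3] at e2
    have e4 : n ^ 2 * Real.exp (-(κ * (40 * t * Real.log n) * (n + 2))) ≤ n ^ 2 * (1 / n ^ 5) :=
      mul_le_mul_of_nonneg_left e2 (by positivity)
    refine e4.trans ?_
    have e5 : n ^ 2 * (1 / n ^ 5) = 1 / n ^ 3 := by field_simp
    rw [e5, div_le_div_iff₀ (by positivity) (by norm_num)]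
    have : (2 : ℝ) ^ 3 ≤ n ^ 3 := pow_le_pow_left₀ (by norm_num) hn' 3
    linarith

end Pool.Agent.Helper353.Oct
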