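import Pool.Agent.Helper353.Oct.Level2

/-!
Counting the small eigenvalues of the complete graph.
-/

open scoped BigOperators InnerProductSpace

namespace Pool.Agent.Helper353.Oct

open Equiv Module

variable {α : Type*} [Fintype α] [DecidableEq α]

open scoped Classical in
/-- indicator of the permutations with prescribed values of the inverse at given points -/
noncomputable def ind {k : ℕ} (s : Fin k → α × α) : EE α :=
  WithLp.toLp 2 (fun x : Perm α => if ∀ i, x⁻¹ (s i).1 = (s i).2 then 1 else 0)

open scoped Classical in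
lemma ind_apply {k : ℕ} (s : Fin k → α × α) (x : Perm α) :
    ind s x = if ∀ i, x⁻¹ (s i).1 = (s i).2 then 1 else 0 := rfl

/-- the span of the functions of at most `k` coordinates -/
noncomputable def WW (α : Type*) [Fintype α] [DecidableEq α] (k : ℕ) : Submodule ℝ (EE α) :=
  Submodule.span ℝ (Set.range (ind : (Fin k → α × α) → EE α))

lemma finrank_WW (k : ℕ) :
    finrank ℝ (WW α k) ≤ (Fintype.card α ^ 2) ^ k := by
  have h1 := finrank_range_le_card (R := ℝ) (ind : (Fin k → α × α) → EE α)
  refine h1.trans (le_of_eq ?_)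
  rw [Fintype.card_fun, Fintype.card_prod, Fintype.card_fin, pow_two]

lemma mem_WW_orth {k : ℕ} {v : EE α} :
    v ∈ (WW α k)ᗮ ↔ ∀ s : Fin k → α × α, ⟪ind s, v⟫_ℝ = 0 := by
  constructor
  · intro h s
    exact (Submodule.mem_orthogonal _ _).1 h _ (Submodule.subset_span ⟨s, rfl⟩)
  · intro h
    rw [Submodule.mem_orthogonal]
    intro u hu
    refine Submodule.span_induction (p := fun u _ => ⟪u, v⟫_ℝ = 0) ?_ ?_ ?_ ?_ hu
    · rintro _ ⟨s, rfl⟩; exact h s
    · exact inner_zero_left _
    · intro a b _ _ ha hb
      rw [inner_add_left, ha, hb, add_zero]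
    · intro r a _ ha
      rw [real_inner_smul_left, ha, mul_zero]

lemma sw_ind {k : ℕ} (a b : α) (s : Fin k → α × α) :
    sw a b (ind s) = ind (fun i => (swap a b (s i).1, (s i).2)) := by
  ext x
  rw [sw_apply, ind_apply, ind_apply]
  simp only [mul_inv_rev, swap_inv, Perm.mul_apply]

lemma WW_orth_inv {k : ℕ} (a b : α) {v : EE α} (hv : v ∈ (WW α k)ᗮ) : sw a b v ∈ (WW α k)ᗮ := by
  rw [mem_WW_orth] at hv ⊢
  intro s
  rw [← inner_sw, sw_ind]
  exact hv _

/-- a function invariant under the transpositions of `S` is invariant under all permutations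
supported in `S` -/
lemma fixed_perm {S : Finset α} {v : EE α} (hv : ∀ a ∈ S, ∀ b ∈ S, sw a b v = v) :
    ∀ (N : ℕ) (g : Perm α), g.support.card = N → g.support ⊆ S → ∀ x, v (g * x) = v x := by
  intro N
  induction N using Nat.strong_induction_on with
  | _ N ih =>
  intro g hg hgS x
  by_cases h1 : g = 1
  · rw [h1, one_mul]
  obtain ⟨a, ha⟩ : ∃ a, g a ≠ a := by
    by_contra h
    push Not at h
    exact h1 (Perm.ext h)
  have haS : a ∈ g.support := Perm.mem_support.2 ha
  have hgaS : g a ∈ g.support := Perm.apply_mem_support.2 haS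
  have hlt : (swap a (g a) * g).support.card < g.support.card :=
    Perm.card_support_swap_mul ha
  have hsub : (swap a (g a) * g).support ⊆ g.support := by
    intro y hy
    rw [Perm.mem_support] at hy ⊢
    intro hgy
    apply hy
    rw [Perm.mul_apply, hgy]
    apply swap_apply_of_ne_of_ne
    · rintro rfl; exact ha hgy
    · intro h
      have : g y = g a := by rw [hgy]; exact h
      have := g.injective this
      rw [this] at hgy
      exact ha hgy
  have h2 := ih _ (hg ▸ hlt) (swap a (g a) * g) rfl (hsub.trans hgS) x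
  rw [← h2, mul_assoc]
  have h3 := hv a (hgS haS) (g a) (hgS hgaS)
  have h4 := congrArg (fun w : EE α => w (g * x)) h3
  simp only [sw_apply] at h4
  exact h4.symm

/-- the form of the complete graph on functions orthogonal to functions of `k` coordinates -/
theorem form_ge {k : ℕ} (hk : k < Fintype.card α) {v : EE α} (hv : v ∈ (WW α k)ᗮ) :
    ((k : ℝ) + 1) * ((Fintype.card α : ℝ) + 2) * ‖v‖ ^ 2 ≤ ⟪AT Finset.univ v, v⟫_ℝ := by
  have h := level (Fintype.card α) (Finset.univ : Finset α) Finset.card_univ (WW α k)ᗮ
    (fun a _ b _ w hw => WW_orth_inv a b hw) (Fintype.card α - k - 1) ?_ v hv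
  · rw [Finset.card_univ] at h
    have e : ((Fintype.card α : ℝ) - ((Fintype.card α - k - 1 : ℕ) : ℝ)) = (k : ℝ) + 1 := by
      rw [Nat.cast_sub (by omega), Nat.cast_sub (by omega)]
      push_cast
      ring
    rwa [e] at h
  · intro S _ hS w hw hfix
    rw [mem_WW_orth] at hw
    ext x0
    -- enumerate the complement of `S`
    have hcard : (Sᶜ : Finset α).card = k := by
      rw [Finset.card_compl]; omega
    set e : Fin k → α := fun i => ((Sᶜ : Finset α).equivFinOfCardEq hcard).symm i with he
    have herange : ∀ b, b ∉ S → ∃ i, e i = b := by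
      intro b hb
      refine ⟨(Sᶜ : Finset α).equivFinOfCardEq hcard ⟨b, Finset.mem_compl.2 hb⟩, ?_⟩
      simp [he]
    have h0 := hw (fun i => (e i, x0⁻¹ (e i)))
    rw [inner_def] at h0
    have h1 : ∀ x : Perm α, ind (fun i => (e i, x0⁻¹ (e i))) x * w x =
        ind (fun i => (e i, x0⁻¹ (e i))) x * w x0 := by
      intro x
      rw [ind_apply]
      split_ifs with hx
      · rw [one_mul, one_mul]
        have hsup : (x * x0⁻¹).support ⊆ S := by
          intro b hb
          by_contra hbS
          obtain ⟨i, rfl⟩ := herange b hbS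
          rw [Perm.mem_support] at hb
          apply hb
          rw [Perm.mul_apply]
          have := hx i
          simp only at this
          rw [← this]
          simp
        have h2 := fixed_perm hfix _ (x * x0⁻¹) rfl hsup x0
        rw [inv_mul_cancel_right] at h2
        exact h2
      · rw [zero_mul, zero_mul]
    simp_rw [h1] at h0
    rw [← Finset.sum_mul] at h0
    have h3 : 0 < ∑ x, ind (fun i => (e i, x0⁻¹ (e i))) x := by
      refine Finset.sum_pos' (fun x _ => ?_) ⟨x0, Finset.mem_univ _, ?_⟩
      · rw [ind_apply]; split_ifs <;> norm_num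
      · rw [ind_apply, if_pos (fun i => rfl)]; norm_num
    have h4 := (mul_eq_zero.1 h0).resolve_left h3.ne'
    simpa using h4

/-- few eigenvalues are small -/
theorem count_le {E : Type*} [NormedAddCommGroup E] [InnerProductSpace ℝ E] [FiniteDimensional ℝ E]
    {N : ℕ} (b : OrthonormalBasis (Fin N) ℝ E) (A : E →ₗ[ℝ] E) (lam : Fin N → ℝ)
    (hb : ∀ i, A (b i) = lam i • b i) (W : Submodule ℝ E) (a : ℝ)
    (hW : ∀ v ∈ Wᗮ, a * ‖v‖ ^ 2 ≤ ⟪A v, v⟫_ℝ) :
    (Finset.univ.filter (fun i => lam i < a)).card ≤ finrank ℝ W := by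
  classical
  set I := Finset.univ.filter (fun i => lam i < a) with hI
  set Ψ : (I → ℝ) →ₗ[ℝ] E := ∑ i : I, (LinearMap.proj i).smulRight (b i) with hΨ
  have hΨa : ∀ c : I → ℝ, Ψ c = ∑ i : I, c i • b i := by
    intro c
    rw [hΨ]
    simp [LinearMap.sum_apply]
  set Θ : (I → ℝ) →ₗ[ℝ] W := (W.orthogonalProjectionOnto : E →L[ℝ] W).toLinearMap ∘ₗ Ψ with hΘ
  have hinj : Function.Injective Θ := by
    rw [← LinearMap.ker_eq_bot, LinearMap.ker_eq_bot']
    intro c hc
    have h1 : Ψ c ∈ Wᗮ := by
      have : W.orthogonalProjectionOnto (Ψ c) = 0 := hc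
      exact Submodule.orthogonalProjectionOnto_eq_zero_iff.1 this
    have h2 := hW _ h1
    have h3 : ‖Ψ c‖ ^ 2 = ∑ i : I, c i ^ 2 := by
      rw [← real_inner_self_eq_norm_sq, hΨa, sum_inner]
      refine Finset.sum_congr rfl fun i _ => ?_
      rw [inner_sum, Finset.sum_eq_single i]
      · rw [real_inner_smul_left, real_inner_smul_right, real_inner_self_eq_norm_sq,
          b.orthonormal.1]
        ring
      · intro j _ hj
        rw [real_inner_smul_left, real_inner_smul_right, b.orthonormal.2]
        · ring
        · intro h; exact hj (Subtype.ext h.symm)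
      · intro h; exact absurd (Finset.mem_univ _) h
    have h4 : ⟪A (Ψ c), Ψ c⟫_ℝ = ∑ i : I, lam i * c i ^ 2 := by
      rw [hΨa, map_sum, sum_inner]
      refine Finset.sum_congr rfl fun i _ => ?_
      rw [map_smul, hb, inner_sum, Finset.sum_eq_single i]
      · rw [real_inner_smul_left, real_inner_smul_left, real_inner_smul_right,
          real_inner_self_eq_norm_sq, b.orthonormal.1]
        ring
      · intro j _ hj
        rw [real_inner_smul_left, real_inner_smul_left, real_inner_smul_right, b.orthonormal.2]
        · ring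
        · intro h; exact hj (Subtype.ext h.symm)
      · intro h; exact absurd (Finset.mem_univ _) h
    rw [h3, h4, Finset.mul_sum] at h2
    by_contra hne
    obtain ⟨i, hi⟩ : ∃ i, c i ≠ 0 := by
      by_contra h
      push Not at h
      exact hne (funext h)
    have h5 : ∑ i : I, lam i * c i ^ 2 < ∑ i : I, a * c i ^ 2 := by
      refine Finset.sum_lt_sum (fun j _ => ?_) ⟨i, Finset.mem_univ _, ?_⟩
      · have : lam j < a := (Finset.mem_filter.1 j.2).2
        exact mul_le_mul_of_nonneg_right this.le (sq_nonneg _)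
      · have : lam i < a := (Finset.mem_filter.1 i.2).2
        exact mul_lt_mul_of_pos_right this (by positivity)
    linarith
  have h1 := LinearMap.finrank_le_finrank_of_injective hinj
  rw [Module.finrank_fintype_fun_eq_card, Fintype.card_coe] at h1
  exact h1

end Pool.Agent.Helper353.Oct
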