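import Pool.Agent.Helper353.Oct.Cmp
import Pool.Agent.Helper353.Oct.Count

/-!
The interchange process on a finite set: generator, semigroup, contraction.
-/

open scoped BigOperators InnerProductSpace Matrix

namespace Pool.Agent.Helper353.Oct

open Equiv Module

variable {α : Type*} [Fintype α] [DecidableEq α]

/-- the generator of the interchange process with rates `w` -/
noncomputable def IW (w : α → α → ℝ) : Matrix (Perm α) (Perm α) ℝ := fun g h =>
  1 / 2 * ∑ x, ∑ y, w x y * ((if swap x y * g = h then 1 else 0) - (if g = h then 1 else 0))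

lemma IW_mulVec (w : α → α → ℝ) (f : Perm α → ℝ) (g : Perm α) :
    (IW w *ᵥ f) g = 1 / 2 * ∑ x, ∑ y, w x y * (f (swap x y * g) - f g) := by
  rw [Matrix.mulVec, dotProduct]
  simp only [IW]
  have e1 : ∀ h, (1 / 2 * ∑ x, ∑ y, w x y * ((if swap x y * g = h then 1 else 0) -
      (if g = h then 1 else 0))) * f h = 1 / 2 * ∑ x, ∑ y, w x y *
        ((if swap x y * g = h then f h else 0) - (if g = h then f h else 0)) := by
    intro h
    rw [mul_assoc, Finset.sum_mul]
    congr 1
    refine Finset.sum_congr rfl fun x _ => ?_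
    rw [Finset.sum_mul]
    refine Finset.sum_congr rfl fun y _ => ?_
    split_ifs <;> ring
  simp_rw [e1]
  rw [← Finset.mul_sum, Finset.sum_comm]
  congr 1
  refine Finset.sum_congr rfl fun x _ => ?_
  rw [Finset.sum_comm]
  refine Finset.sum_congr rfl fun y _ => ?_
  rw [← Finset.mul_sum, Finset.sum_sub_distrib, Finset.sum_ite_eq, Finset.sum_ite_eq]
  simp

lemma IW_gen {w : α → α → ℝ} (hoff : ∀ x y, x ≠ y → 0 ≤ w x y) :
    Gen (IW w) := by
  refine ⟨fun g h => ?_, fun g h hgh => ?_, fun g => ?_⟩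
  · unfold IW
    congr 1
    refine Finset.sum_congr rfl fun x _ => Finset.sum_congr rfl fun y _ => ?_
    have e1 : (swap x y * g = h) ↔ (swap x y * h = g) := by
      constructor
      · rintro rfl
        rw [← mul_assoc, swap_mul_self, one_mul]
      · rintro rfl
        rw [← mul_assoc, swap_mul_self, one_mul]
    have e2 : (g = h) ↔ (h = g) := eq_comm
    simp only [e1, e2]
  · unfold IW
    refine mul_nonneg (by norm_num) (Finset.sum_nonneg fun x _ => Finset.sum_nonneg fun y _ => ?_)
    rw [if_neg hgh, sub_zero]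
    by_cases hxy : x = y
    · subst hxy
      have h1 : (swap x x : Perm α) = 1 := swap_self x
      rw [h1, one_mul, if_neg hgh, mul_zero]
    · refine mul_nonneg (hoff x y hxy) ?_
      split_ifs <;> norm_num
  · have h1 := IW_mulVec w (fun _ => 1) g
    rw [Matrix.mulVec, dotProduct] at h1
    simp only [mul_one, sub_self, mul_zero, Finset.sum_const_zero] at h1
    exact h1

/-- the generator as a linear map -/
noncomputable def LW (w : α → α → ℝ) : EE α →ₗ[ℝ] EE α :=
  (1 / 2 : ℝ) • ∑ x, ∑ y, w x y • (sw x y - LinearMap.id)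

lemma LW_apply (w : α → α → ℝ) (v : EE α) :
    LW w v = (1 / 2 : ℝ) • ∑ x, ∑ y, w x y • (sw x y v - v) := by
  unfold LW
  simp only [LinearMap.smul_apply, LinearMap.sum_apply, LinearMap.sub_apply, LinearMap.id_apply]

/-- the operator of a matrix -/
noncomputable abbrev TT (M : Matrix (Perm α) (Perm α) ℝ) : EE α →L[ℝ] EE α :=
  Matrix.toEuclideanCLM (n := Perm α) (𝕜 := ℝ) M

lemma TT_apply (M : Matrix (Perm α) (Perm α) ℝ) (v : EE α) (g : Perm α) :
    TT M v g = ∑ h, M g h * v h := rfl

lemma TT_IW (w : α → α → ℝ) (v : EE α) : TT (IW w) v = LW w v := by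
  ext g
  have h1 : TT (IW w) v g = (IW w *ᵥ (fun h => v h)) g := rfl
  rw [h1, IW_mulVec, LW_apply]
  simp [sw_apply]

lemma TT_exp (M : Matrix (Perm α) (Perm α) ℝ) :
    TT (NormedSpace.exp M) = NormedSpace.exp (TT M) := by
  open scoped Matrix.Norms.Operator in
  refine NormedSpace.map_exp (Matrix.toEuclideanCLM (n := Perm α) (𝕜 := ℝ)) ?_ M
  exact LinearMap.continuous_of_finiteDimensional
    ((Matrix.toEuclideanCLM (n := Perm α) (𝕜 := ℝ)).toAlgEquiv.toLinearMap)

/-- contraction for negative semidefinite operators -/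
lemma exp_contract {E : Type*} [NormedAddCommGroup E] [InnerProductSpace ℝ E] [CompleteSpace E]
    (R : E →L[ℝ] E) (hR : ∀ v, ⟪R v, v⟫_ℝ ≤ 0) {s : ℝ} (hs : 0 ≤ s) (v : E) :
    ‖NormedSpace.exp (s • R) v‖ ^ 2 ≤ ‖v‖ ^ 2 := by
  have hder : ∀ t : ℝ, HasDerivAt (fun t : ℝ => NormedSpace.exp (t • R) v)
      (R (NormedSpace.exp (t • R) v)) t := by
    intro t
    have h1 := hasDerivAt_exp_smul_const' (𝕂 := ℝ) R t
    have h2 := h1.clm_apply (hasDerivAt_const t v)
    simpa using h2
  have hder2 : ∀ t : ℝ, HasDerivAt (fun t : ℝ => ‖NormedSpace.exp (t • R) v‖ ^ 2)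
      (2 * ⟪NormedSpace.exp (t • R) v, R (NormedSpace.exp (t • R) v)⟫_ℝ) t := fun t =>
    (hder t).norm_sq
  have hanti : Antitone (fun t : ℝ => ‖NormedSpace.exp (t • R) v‖ ^ 2) := by
    refine antitone_of_deriv_nonpos (fun t => (hder2 t).differentiableAt) fun t => ?_
    rw [(hder2 t).deriv]
    have := hR (NormedSpace.exp (t • R) v)
    rw [real_inner_comm] at this
    linarith
  have h3 := hanti hs
  simp only [zero_smul, NormedSpace.exp_zero, one_apply_eq_self] at h3
  exact h3

end Pool.Agent.Helper353.Oct
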