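import Pool.Agent.Helper353.Oct.L2a

/-!
The `L²` bound for the interchange process.
-/

open scoped BigOperators InnerProductSpace Matrix

namespace Pool.Agent.Helper353.Oct

open Equiv Module

variable {α : Type*} [Fintype α] [DecidableEq α]

lemma LW_inner (w : α → α → ℝ) (v : EE α) :
    ⟪LW w v, v⟫_ℝ = -(1 / 4 * ∑ x, ∑ y, w x y * DD (fun g => v g) x y) := by
  rw [LW_apply, real_inner_smul_left, sum_inner]
  have h1 : ∀ x y, ⟪w x y • (sw x y v - v), v⟫_ℝ = -(1 / 2 * (w x y * DD (fun g => v g) x y)) := by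
    intro x y
    rw [real_inner_smul_left, inner_sub_left, DD_eq, ps_one, real_inner_self_eq_norm_sq,
      ← real_inner_self_eq_norm_sq, inner_def, inner_def]
    have e1 : ∑ g, sw x y v g * v g = ps (fun g => v g) (swap x y) := rfl
    have e2 : ∑ g, v g * v g = ∑ g, v g ^ 2 := Finset.sum_congr rfl fun g _ => by ring
    rw [e1, e2]
    ring
  have h2 : ∀ x, ⟪∑ y, w x y • (sw x y v - v), v⟫_ℝ =
      ∑ y, -(1 / 2 * (w x y * DD (fun g => v g) x y)) := by
    intro x
    rw [sum_inner]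
    exact Finset.sum_congr rfl fun y _ => h1 x y
  simp_rw [h2]
  simp only [Finset.sum_neg_distrib, ← Finset.mul_sum]
  ring

lemma LW_one (v : EE α) : LW (fun _ _ => 1) v = -((1 / 2 : ℝ) • AT Finset.univ v) := by
  rw [LW_apply, AT_apply, ← smul_neg]
  congr 1
  rw [← Finset.sum_neg_distrib]
  refine Finset.sum_congr rfl fun x _ => ?_
  rw [← Finset.sum_neg_distrib]
  refine Finset.sum_congr rfl fun y _ => ?_
  rw [one_smul, neg_sub]

lemma LW_AT (w : α → α → ℝ) (v : EE α) :
    LW w (AT Finset.univ v) = AT Finset.univ (LW w v) := by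
  rw [LW_apply, LW_apply, map_smul, map_sum]
  congr 1
  refine Finset.sum_congr rfl fun x _ => ?_
  rw [map_sum]
  refine Finset.sum_congr rfl fun y _ => ?_
  rw [map_smul, map_sub, AT_sw (Finset.mem_univ _) (Finset.mem_univ _)]

lemma LW_comm (w : α → α → ℝ) (v : EE α) :
    LW w (LW (fun _ _ => 1) v) = LW (fun _ _ => 1) (LW w v) := by
  rw [LW_one, LW_one, map_neg, map_smul, LW_AT]

lemma TT_smul (c : ℝ) (M : Matrix (Perm α) (Perm α) ℝ) : TT (c • M) = c • TT M := by
  refine ContinuousLinearMap.ext fun v => ?_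
  ext g
  have h1 : TT (c • M) v g = ∑ h, (c • M) g h * v h := rfl
  have h2 : (c • TT M) v g = c * ∑ h, M g h * v h := rfl
  rw [h1, h2, Finset.mul_sum]
  exact Finset.sum_congr rfl fun h _ => by rw [Matrix.smul_apply, smul_eq_mul, mul_assoc]

lemma exp_add' {x y : EE α →L[ℝ] EE α} (h : Commute x y) :
    NormedSpace.exp (x + y) = NormedSpace.exp x * NormedSpace.exp y :=
  NormedSpace.exp_add_of_commute_of_mem_ball (𝕂 := ℝ) h
    ((NormedSpace.expSeries_radius_eq_top ℝ (EE α →L[ℝ] EE α)).symm ▸ edist_lt_top _ _)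
    ((NormedSpace.expSeries_radius_eq_top ℝ (EE α →L[ℝ] EE α)).symm ▸ edist_lt_top _ _)

/-- comparison of semigroups from comparison of forms -/
theorem semi_compare {w : α → α → ℝ} {κ : ℝ}
    (hκ : ∀ f : Perm α → ℝ, κ * ∑ x, ∑ y, DD f x y ≤ ∑ x, ∑ y, w x y * DD f x y)
    {τ : ℝ} (hτ : 0 ≤ τ) (v : EE α) :
    ‖TT (Kt (IW w) τ) v‖ ^ 2 ≤ ‖TT (Kt (IW (fun _ _ => 1)) (κ * τ)) v‖ ^ 2 := by
  set A := TT (IW w) with hA
  set B := TT (IW (fun _ _ : α => (1 : ℝ))) with hB
  set R := A - κ • B with hR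
  have hAB : ∀ v, A (B v) = B (A v) := by
    intro v
    rw [hA, hB, TT_IW, TT_IW, TT_IW, TT_IW, LW_comm]
  have hRB : ∀ v, R (B v) = B (R v) := by
    intro v
    have e1 : ∀ v, R v = A v - κ • B v := fun v => rfl
    rw [e1, e1, map_sub, map_smul, hAB]
  have hcomm : Commute (τ • R) ((κ * τ) • B) := by
    have e1 : ∀ v, (τ • R) (((κ * τ) • B) v) = ((κ * τ) • B) ((τ • R) v) := by
      intro v
      have e2 : (τ • R) (((κ * τ) • B) v) = τ • R ((κ * τ) • B v) := rfl
      have e3 : ((κ * τ) • B) ((τ • R) v) = (κ * τ) • B (τ • R v) := rfl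
      rw [e2, e3, map_smul, map_smul, hRB, smul_comm]
    exact ContinuousLinearMap.ext e1
  have hRneg : ∀ v, ⟪R v, v⟫_ℝ ≤ 0 := by
    intro v
    have e1 : R v = LW w v - κ • LW (fun _ _ => 1) v := by
      have e2 : R v = A v - κ • B v := rfl
      rw [e2, hA, hB, TT_IW, TT_IW]
    rw [e1, inner_sub_left, real_inner_smul_left, LW_inner, LW_inner]
    have := hκ (fun g => v g)
    simp only [one_mul]
    linarith
  have h1 : TT (Kt (IW w) τ) = NormedSpace.exp (τ • R) * NormedSpace.exp ((κ * τ) • B) := by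
    unfold Kt
    rw [TT_exp, TT_smul, ← exp_add' hcomm]
    congr 1
    rw [hR, smul_sub, smul_smul, mul_comm τ κ, sub_add_cancel]
  have h2 : TT (Kt (IW (fun _ _ => 1)) (κ * τ)) = NormedSpace.exp ((κ * τ) • B) := by
    unfold Kt
    rw [TT_exp, TT_smul]
  rw [h1, h2]
  exact exp_contract R hRneg hτ _

lemma IW_shift (w : α → α → ℝ) (g h z : Perm α) : IW w (g * z) (h * z) = IW w g h := by
  unfold IW
  simp only [← mul_assoc, mul_left_inj]

lemma Kt_shift (w : α → α → ℝ) (t : ℝ) (g h z : Perm α) :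
    Kt (IW w) t (g * z) (h * z) = Kt (IW w) t g h := by
  have h1 : ∀ k : ℕ, ∀ g h, ((t • IW w) ^ k) (g * z) (h * z) = ((t • IW w) ^ k) g h := by
    intro k
    induction k with
    | zero =>
      intro g h
      rw [pow_zero, Matrix.one_apply, Matrix.one_apply]
      simp only [mul_left_inj]
    | succ k ih =>
      intro g h
      rw [pow_succ, Matrix.mul_apply, Matrix.mul_apply,
        ← Equiv.sum_comp (Equiv.mulRight z)]
      refine Finset.sum_congr rfl fun y _ => ?_
      rw [Equiv.coe_mulRight, ih, Matrix.smul_apply, Matrix.smul_apply, IW_shift]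
  have h2 := exp_hasSum (t • IW w) (g * z) (h * z)
  have h3 := exp_hasSum (t • IW w) g h
  simp_rw [h1] at h2
  exact h2.unique h3

/-- the exponential of an operator on an eigenvector -/
lemma exp_eigen {E : Type*} [NormedAddCommGroup E] [InnerProductSpace ℝ E] [CompleteSpace E]
    (B : E →L[ℝ] E) (v : E) (μ : ℝ) (h : B v = μ • v) :
    NormedSpace.exp B v = Real.exp μ • v := by
  have h0 := (ContinuousLinearMap.apply ℝ E v).hasSum
    (NormedSpace.exp_series_hasSum_exp' (𝕂 := ℝ) B)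
  have h1 : HasSum (fun k : ℕ => ((k.factorial : ℝ)⁻¹ • B ^ k) v) (NormedSpace.exp B v) := by
    simp only [ContinuousLinearMap.apply_apply] at h0
    exact h0
  have h2 : ∀ k : ℕ, (B ^ k) v = μ ^ k • v := by
    intro k
    induction k with
    | zero => simp
    | succ k ih =>
      rw [pow_succ]
      change (B ^ k) (B v) = _
      rw [h, map_smul, ih, smul_smul, pow_succ, mul_comm]
  have h3 : HasSum (fun k : ℕ => ((k.factorial : ℝ)⁻¹ • B ^ k) v) (Real.exp μ • v) := by
    have h4 : HasSum (fun k : ℕ => ((k.factorial : ℝ)⁻¹ • μ ^ k)) (Real.exp μ) := by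
      rw [Real.exp_eq_exp_ℝ]
      exact NormedSpace.exp_series_hasSum_exp' (𝕂 := ℝ) μ
    have h5 := h4.smul_const v
    have e : (fun k : ℕ => ((k.factorial : ℝ)⁻¹ • B ^ k) v) =
        fun k : ℕ => ((k.factorial : ℝ)⁻¹ • μ ^ k) • v := by
      funext k
      have e1 : ((k.factorial : ℝ)⁻¹ • B ^ k) v = (k.factorial : ℝ)⁻¹ • ((B ^ k) v) := rfl
      rw [e1, h2, smul_smul, smul_eq_mul]
    rw [e]
    exact h5
  exact h1.unique h3

end Pool.Agent.Helper353.Oct
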