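import Pool.Agent.Helper353.Oct.L2b

/-!
Trace formula and total variation bound for the interchange process.
-/

open scoped BigOperators InnerProductSpace Matrix

namespace Pool.Agent.Helper353.Oct

open Equiv Module

variable {α : Type*} [Fintype α] [DecidableEq α]

/-- the number of permutations -/
noncomputable def NN (α : Type*) [Fintype α] [DecidableEq α] : ℕ := finrank ℝ (EE α)

lemma NN_eq : NN α = Fintype.card (Perm α) := by
  unfold NN
  exact finrank_euclideanSpace

lemma NN_le : NN α ≤ (Fintype.card α ^ 2) ^ Fintype.card α := by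
  rw [NN_eq, Fintype.card_perm]
  refine (Nat.factorial_le_pow _).trans ?_
  refine Nat.pow_le_pow_left ?_ _
  rw [pow_two]
  exact Nat.le_mul_self _

/-- eigenvectors of the complete graph -/
noncomputable def eb (α : Type*) [Fintype α] [DecidableEq α] :
    OrthonormalBasis (Fin (NN α)) ℝ (EE α) :=
  (AT_symm (Finset.univ : Finset α)).eigenvectorBasis rfl

/-- eigenvalues of the complete graph -/
noncomputable def el (α : Type*) [Fintype α] [DecidableEq α] : Fin (NN α) → ℝ :=
  (AT_symm (Finset.univ : Finset α)).eigenvalues rfl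

lemma eb_eq (i : Fin (NN α)) : AT Finset.univ (eb α i) = el α i • eb α i := by
  have := (AT_symm (Finset.univ : Finset α)).apply_eigenvectorBasis rfl i
  exact this

lemma el_nonneg (i : Fin (NN α)) : 0 ≤ el α i := by
  have h1 := AT_nonneg Finset.univ (eb α i)
  rw [eb_eq, real_inner_smul_left, real_inner_self_eq_norm_sq, (eb α).orthonormal.1] at h1
  simpa using h1

lemma el_count {k : ℕ} (hk : k < Fintype.card α) :
    (Finset.univ.filter (fun i => el α i < ((k : ℝ) + 1) * ((Fintype.card α : ℝ) + 2))).card ≤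
      (Fintype.card α ^ 2) ^ k :=
  (count_le (eb α) (AT Finset.univ) (el α) eb_eq (WW α k) _
    (fun v hv => form_ge hk hv)).trans (finrank_WW k)

/-- the trace of the semigroup of the complete graph -/
lemma trace_eq (s : ℝ) :
    ∑ g, Kt (IW (fun _ _ : α => (1 : ℝ))) s g g = ∑ i, Real.exp (-(s * el α i / 2)) := by
  set M := Kt (IW (fun _ _ : α => (1 : ℝ))) s with hM
  set T : EE α →ₗ[ℝ] EE α := (TT M).toLinearMap with hT
  have h1 := LinearMap.trace_eq_sum_inner T (EuclideanSpace.basisFun (Perm α) ℝ)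
  have h2 := LinearMap.trace_eq_sum_inner T (eb α)
  have h3 : ∀ g : Perm α, ⟪EuclideanSpace.basisFun (Perm α) ℝ g,
      T (EuclideanSpace.basisFun (Perm α) ℝ g)⟫_ℝ = M g g := by
    intro g
    rw [EuclideanSpace.basisFun_apply, EuclideanSpace.inner_single_left]
    have e1 : T (EuclideanSpace.single g 1) g = ∑ h, M g h * (EuclideanSpace.single g (1 : ℝ) : EE α) h :=
      rfl
    rw [e1]
    simp
  have h4 : ∀ i, ⟪eb α i, T (eb α i)⟫_ℝ = Real.exp (-(s * el α i / 2)) := by
    intro i
    have e1 : T (eb α i) = Real.exp (-(s * el α i / 2)) • eb α i := by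
      have e2 : T (eb α i) = NormedSpace.exp (s • TT (IW (fun _ _ : α => (1 : ℝ)))) (eb α i) := by
        rw [hT, hM]
        unfold Kt
        rw [TT_exp, TT_smul]
        rfl
      rw [e2]
      apply exp_eigen
      have e3 : (s • TT (IW (fun _ _ : α => (1 : ℝ)))) (eb α i) =
          s • TT (IW (fun _ _ : α => (1 : ℝ))) (eb α i) := rfl
      rw [e3, TT_IW, LW_one, eb_eq, smul_smul, ← neg_smul, smul_smul]
      congr 1
      ring
    rw [e1, real_inner_smul_right, real_inner_self_eq_norm_sq, (eb α).orthonormal.1]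
    ring
  simp_rw [h3] at h1
  simp_rw [h4] at h2
  rw [← h1, h2]

open scoped Classical in
lemma trace_le {s : ℝ} (hs : 0 ≤ s) {q : ℝ}
    (hq : q = (Fintype.card α : ℝ) ^ 2 * Real.exp (-(s * ((Fintype.card α : ℝ) + 2) / 2)))
    (hq1 : q < 1) : ∑ i, Real.exp (-(s * el α i / 2)) ≤ 1 / (1 - q) := by
  set n := Fintype.card α with hn
  set r := Real.exp (-(s * ((n : ℝ) + 2) / 2)) with hr
  have hr0 : 0 < r := Real.exp_pos _
  have hq0 : 0 ≤ q := by rw [hq]; positivity
  set P : ℕ → Fin (NN α) → Prop := fun k i => k = n ∨ el α i < ((k : ℝ) + 1) * ((n : ℝ) + 2) with hP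
  have h1 : ∀ i, Real.exp (-(s * el α i / 2)) ≤
      ∑ k ∈ Finset.range (n + 1), if P k i then r ^ k else 0 := by
    intro i
    have hex : ∃ k, P k i := ⟨n, Or.inl rfl⟩
    set k := Nat.find hex with hk
    have hkP : P k i := Nat.find_spec hex
    have hkn : k ≤ n := Nat.find_min' hex (Or.inl rfl)
    have h2 : Real.exp (-(s * el α i / 2)) ≤ r ^ k := by
      rw [hr, ← Real.exp_nat_mul]
      apply Real.exp_le_exp.2
      have h3 : (k : ℝ) * ((n : ℝ) + 2) ≤ el α i := by
        rcases Nat.eq_zero_or_pos k with h0 | h0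
        · rw [h0]; simpa using el_nonneg i
        · have h4 := Nat.find_min hex (m := k - 1) (by omega)
          simp only [hP, not_or, not_lt] at h4
          have h5 := h4.2
          have h6 : ((k - 1 : ℕ) : ℝ) + 1 = k := by
            have : k - 1 + 1 = k := by omega
            exact_mod_cast this
          rwa [h6] at h5
      have h7 := mul_le_mul_of_nonneg_left h3 hs
      nlinarith
    refine h2.trans ?_
    have h3 : r ^ k = if P k i then r ^ k else 0 := by rw [if_pos hkP]
    rw [h3]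
    exact Finset.single_le_sum (f := fun k => if P k i then r ^ k else 0)
      (fun j _ => by split_ifs <;> positivity) (Finset.mem_range.2 (by omega))
  have h2 : ∑ i, Real.exp (-(s * el α i / 2)) ≤ ∑ k ∈ Finset.range (n + 1), q ^ k := by
    refine (Finset.sum_le_sum fun i _ => h1 i).trans ?_
    rw [Finset.sum_comm]
    refine Finset.sum_le_sum fun k hk => ?_
    rw [← Finset.sum_filter, Finset.sum_const, nsmul_eq_mul]
    have h3 : (((Finset.univ.filter (fun i => P k i)).card : ℕ) : ℝ) ≤ ((n : ℝ) ^ 2) ^ k := by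
      rw [Finset.mem_range] at hk
      rcases Nat.lt_or_ge k n with hkn | hkn
      · have e1 : Finset.univ.filter (fun i => P k i) =
            Finset.univ.filter (fun i => el α i < ((k : ℝ) + 1) * ((n : ℝ) + 2)) := by
          ext i
          simp only [hP, Finset.mem_filter, Finset.mem_univ, true_and]
          constructor
          · rintro (h | h)
            · omega
            · exact h
          · exact Or.inr
        rw [e1]
        have := el_count (α := α) hkn
        exact_mod_cast this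
      · have hkn' : k = n := by omega
        have h4 : (Finset.univ.filter (fun i => P k i)).card ≤ NN α := by
          refine (Finset.card_le_univ _).trans (le_of_eq ?_)
          rw [Fintype.card_fin]
        have h5 := h4.trans (NN_le (α := α))
        rw [hkn']
        rw [hkn'] at h5
        exact_mod_cast h5
    calc (((Finset.univ.filter (fun i => P k i)).card : ℕ) : ℝ) * r ^ k
        ≤ ((n : ℝ) ^ 2) ^ k * r ^ k := mul_le_mul_of_nonneg_right h3 (by positivity)
      _ = q ^ k := by rw [hq, mul_pow]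
  refine h2.trans ?_
  rw [geom_sum_eq hq1.ne, ← neg_div_neg_eq, neg_sub, neg_sub]
  apply div_le_div_of_nonneg_right _ (by linarith)
  have : 0 ≤ q ^ (n + 1) := by positivity
  linarith

/-- the return probability of the complete graph -/
lemma return_le {s : ℝ} (hs : 0 ≤ s) {q : ℝ}
    (hq : q = (Fintype.card α : ℝ) ^ 2 * Real.exp (-(s * ((Fintype.card α : ℝ) + 2) / 2)))
    (hq1 : q < 1) (g : Perm α) :
    (Fintype.card (Perm α) : ℝ) * Kt (IW (fun _ _ : α => (1 : ℝ))) s g g ≤ 1 / (1 - q) := by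
  have h1 : ∀ h, Kt (IW (fun _ _ : α => (1 : ℝ))) s h h =
      Kt (IW (fun _ _ : α => (1 : ℝ))) s g g := by
    intro h
    have := Kt_shift (fun _ _ : α => (1 : ℝ)) s g g (g⁻¹ * h)
    rwa [mul_inv_cancel_left] at this
  have h2 := trace_le hs hq hq1
  rw [← trace_eq] at h2
  simp_rw [h1] at h2
  rwa [Finset.sum_const, Finset.card_univ, nsmul_eq_mul] at h2

/-- sum of squares of a heat kernel -/
lemma sq_sum {X : Type*} [Fintype X] [DecidableEq X] {Q : Matrix X X ℝ} (h : Gen Q) (s : ℝ)
    (g : X) (hX : 0 < Fintype.card X) :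
    ∑ y, (Kt Q s y g - 1 / (Fintype.card X : ℝ)) ^ 2 =
      Kt Q (2 * s) g g - 1 / (Fintype.card X : ℝ) := by
  have hX' : (0 : ℝ) < Fintype.card X := by exact_mod_cast hX
  have e1 : ∀ y, (Kt Q s y g - 1 / (Fintype.card X : ℝ)) ^ 2 =
      Kt Q s g y * Kt Q s y g - 2 / (Fintype.card X : ℝ) * Kt Q s g y +
        (1 / (Fintype.card X : ℝ)) ^ 2 := by
    intro y
    rw [Kt_symm h s y g]
    ring
  simp_rw [e1]
  rw [Finset.sum_add_distrib, Finset.sum_sub_distrib, ← Finset.mul_sum, Kt_row h, Finset.sum_const,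
    Finset.card_univ, nsmul_eq_mul, two_mul, Kt_add, Matrix.mul_apply]
  field_simp
  ring

/-- total variation bound for the interchange process with rates `w` -/
theorem tv_bound {w : α → α → ℝ} (hoff : ∀ x y, x ≠ y → 0 ≤ w x y) {κ : ℝ}
    (hκ0 : 0 ≤ κ)
    (hκ : ∀ f : Perm α → ℝ, κ * ∑ x, ∑ y, DD f x y ≤ ∑ x, ∑ y, w x y * DD f x y)
    {τ : ℝ} (hτ : 0 ≤ τ)
    (hq : (Fintype.card α : ℝ) ^ 2 * Real.exp (-(κ * τ * ((Fintype.card α : ℝ) + 2))) ≤ 1 / 5)
    (g : Perm α) :
    1 / 2 * ∑ h, |Kt (IW w) τ g h - 1 / (Fintype.card (Perm α) : ℝ)| ≤ 1 / 4 := by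
  have hN : 0 < Fintype.card (Perm α) := Fintype.card_pos
  have hN' : (0 : ℝ) < Fintype.card (Perm α) := by exact_mod_cast hN
  set N : ℝ := (Fintype.card (Perm α) : ℝ) with hNdef
  have hG := IW_gen hoff
  have hG1 : Gen (IW (fun _ _ : α => (1 : ℝ))) := IW_gen (fun _ _ _ => zero_le_one)
  -- Cauchy-Schwarz
  have h1 : (∑ h, |Kt (IW w) τ g h - 1 / N|) ^ 2 ≤ N * ∑ h, (Kt (IW w) τ h g - 1 / N) ^ 2 := by
    have := sq_sum_le_card_mul_sum_sq (s := Finset.univ)
      (f := fun h => |Kt (IW w) τ g h - 1 / N|)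
    rw [Finset.card_univ] at this
    refine this.trans (le_of_eq ?_)
    congr 1
    exact Finset.sum_congr rfl fun h _ => by rw [sq_abs, Kt_symm hG τ g h]
  -- the comparison
  set φ : EE α := EuclideanSpace.single g 1 - WithLp.toLp 2 (fun _ => 1 / N) with hφ
  have h2 : ∀ {w' : α → α → ℝ} (t : ℝ), Gen (IW w') →
      ‖TT (Kt (IW w') t) φ‖ ^ 2 = ∑ h, (Kt (IW w') t h g - 1 / N) ^ 2 := by
    intro w' t hG'
    rw [EuclideanSpace.norm_sq_eq]
    refine Finset.sum_congr rfl fun h _ => ?_
    rw [Real.norm_eq_abs, sq_abs]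
    congr 1
    rw [TT_apply]
    have e1 : ∀ h' : Perm α, φ h' = (if h' = g then 1 else 0) - 1 / N := by
      intro h'
      rw [hφ]
      simp [Pi.single_apply]
    simp_rw [e1, mul_sub]
    rw [Finset.sum_sub_distrib, ← Finset.sum_mul, Kt_row hG', one_mul]
    congr 1
    simp
  have h3 := semi_compare hκ hτ φ
  rw [h2 τ hG, h2 (κ * τ) hG1, sq_sum hG1 _ g hN] at h3
  have hq2 : (Fintype.card α : ℝ) ^ 2 *
      Real.exp (-(2 * (κ * τ) * ((Fintype.card α : ℝ) + 2) / 2)) ≤ 1 / 5 := by
    refine le_trans (le_of_eq ?_) hq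
    congr 3
    ring
  have h4 := return_le (α := α) (s := 2 * (κ * τ)) (by positivity) rfl (by linarith) g
  rw [← hNdef] at h4
  have h5 : 1 / (1 - (Fintype.card α : ℝ) ^ 2 *
      Real.exp (-(2 * (κ * τ) * ((Fintype.card α : ℝ) + 2) / 2))) ≤ 5 / 4 := by
    rw [div_le_div_iff₀ (by linarith) (by norm_num)]
    linarith
  have h6 : N * ∑ h, (Kt (IW w) τ h g - 1 / N) ^ 2 ≤ 1 / 4 := by
    have := mul_le_mul_of_nonneg_left h3 hN'.le
    have e : N * (1 / N) = 1 := by field_simp
    rw [← hNdef, mul_sub, e] at this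
    linarith
  have h7 : (∑ h, |Kt (IW w) τ g h - 1 / N|) ^ 2 ≤ (1 / 2) ^ 2 := by
    refine (h1.trans h6).trans (by norm_num)
  have h8 := abs_le_of_sq_le_sq' h7 (by norm_num)
  linarith [h8.2]

end Pool.Agent.Helper353.Oct
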