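import Pool.Agent.Helper353.Oct.Octopus

/-!
Lower bounds for the interchange form of the complete graph on functions orthogonal to functions
of few coordinates.
-/

open scoped BigOperators InnerProductSpace

namespace Pool.Agent.Helper353.Oct

open Equiv

variable {α : Type*} [Fintype α] [DecidableEq α]

/-- functions on the permutations, with the Euclidean inner product -/
abbrev EE (α : Type*) [Fintype α] [DecidableEq α] := EuclideanSpace ℝ (Perm α)

/-- translation by a transposition -/
noncomputable def sw (a b : α) : EE α →ₗ[ℝ] EE α where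
  toFun v := WithLp.toLp 2 (fun x => v (swap a b * x))
  map_add' v w := by ext x; simp
  map_smul' r v := by ext x; simp

lemma sw_apply (a b : α) (v : EE α) (x : Perm α) : sw a b v x = v (swap a b * x) := rfl

lemma inner_def (v w : EE α) : ⟪v, w⟫_ℝ = ∑ x, v x * w x := by
  rw [PiLp.inner_apply]
  refine Finset.sum_congr rfl fun x _ => ?_
  simp [mul_comm]

lemma inner_sw (a b : α) (v w : EE α) : ⟪sw a b v, w⟫_ℝ = ⟪v, sw a b w⟫_ℝ := by
  rw [inner_def, inner_def, ← Equiv.sum_comp (Equiv.mulLeft (swap a b))]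
  refine Finset.sum_congr rfl fun x _ => ?_
  rw [sw_apply, sw_apply, Equiv.coe_mulLeft, ← mul_assoc, swap_mul_self, one_mul]

lemma sw_self (a : α) (v : EE α) : sw a a v = v := by
  ext x
  rw [sw_apply]
  have h : (swap a a : Perm α) = 1 := swap_self a
  rw [h, one_mul]

lemma sw_comm (a b : α) (v : EE α) : sw a b v = sw b a v := by
  ext x
  rw [sw_apply, sw_apply, swap_comm]

lemma sw_sw (a b : α) (v : EE α) : sw a b (sw a b v) = v := by
  ext x
  rw [sw_apply, sw_apply, ← mul_assoc, swap_mul_self, one_mul]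

/-- composition of translations -/
lemma sw_conj (a b c d : α) (v : EE α) :
    sw c d (sw a b v) = sw a b (sw (swap a b c) (swap a b d) v) := by
  ext x
  simp only [sw_apply]
  rw [← mul_assoc, ← mul_assoc, mul_swap_eq_swap_mul]

lemma q_nonneg (a b : α) (v : EE α) : 0 ≤ ⟪v - sw a b v, v⟫_ℝ := by
  have h1 : ‖sw a b v‖ ^ 2 = ‖v‖ ^ 2 := by
    rw [← real_inner_self_eq_norm_sq, inner_sw, sw_sw, real_inner_self_eq_norm_sq]
  have h2 : ‖v - sw a b v‖ ^ 2 = 2 * ⟪v - sw a b v, v⟫_ℝ := by
    rw [norm_sub_sq_real, h1, inner_sub_left, real_inner_self_eq_norm_sq,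
      real_inner_comm v (sw a b v)]
    ring
  have : 0 ≤ ‖v - sw a b v‖ ^ 2 := sq_nonneg _
  linarith

/-- the generator of the complete graph on `T` -/
noncomputable def AT (T : Finset α) : EE α →ₗ[ℝ] EE α :=
  ∑ a ∈ T, ∑ b ∈ T, (LinearMap.id - sw a b)

lemma AT_apply (T : Finset α) (v : EE α) : AT T v = ∑ a ∈ T, ∑ b ∈ T, (v - sw a b v) := by
  unfold AT
  simp only [LinearMap.sum_apply, LinearMap.sub_apply, LinearMap.id_apply]

lemma AT_inner (T : Finset α) (v : EE α) :
    ⟪AT T v, v⟫_ℝ = ∑ a ∈ T, ∑ b ∈ T, ⟪v - sw a b v, v⟫_ℝ := by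
  rw [AT_apply, sum_inner]
  exact Finset.sum_congr rfl fun a _ => sum_inner _ _ _

lemma AT_nonneg (T : Finset α) (v : EE α) : 0 ≤ ⟪AT T v, v⟫_ℝ := by
  rw [AT_inner]
  exact Finset.sum_nonneg fun a _ => Finset.sum_nonneg fun b _ => q_nonneg a b v

lemma AT_symm (T : Finset α) : (AT T : EE α →ₗ[ℝ] EE α).IsSymmetric := by
  intro v w
  rw [AT_apply, AT_apply, sum_inner, inner_sum]
  refine Finset.sum_congr rfl fun a _ => ?_
  rw [sum_inner, inner_sum]
  refine Finset.sum_congr rfl fun b _ => ?_
  rw [inner_sub_left, inner_sub_right, inner_sw]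

lemma swap_mem {T : Finset α} {a b c : α} (ha : a ∈ T) (hb : b ∈ T) (hc : c ∈ T) :
    swap a b c ∈ T := by
  rw [swap_apply_def]
  split_ifs <;> assumption

lemma AT_sw {T : Finset α} {a b : α} (ha : a ∈ T) (hb : b ∈ T) (v : EE α) :
    AT T (sw a b v) = sw a b (AT T v) := by
  rw [AT_apply, AT_apply, map_sum]
  have key : ∀ F : α → EE α, ∑ c ∈ T, F (swap a b c) = ∑ c ∈ T, F c := by
    intro F
    refine Finset.sum_equiv (swap a b) (fun c => ⟨fun h => swap_mem ha hb h, fun h => ?_⟩)
      (fun _ _ => rfl)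
    have := swap_mem ha hb h
    rwa [swap_apply_self] at this
  have h1 : ∀ c, sw a b (∑ d ∈ T, (v - sw c d v)) = ∑ d ∈ T, (sw a b v - sw a b (sw c d v)) := by
    intro c
    rw [map_sum]
    exact Finset.sum_congr rfl fun d _ => map_sub _ _ _
  simp_rw [h1]
  have h2 : ∀ c d, sw c d (sw a b v) = sw a b (sw (swap a b c) (swap a b d) v) :=
    fun c d => sw_conj a b c d v
  simp_rw [h2]
  rw [← key (fun c => ∑ d ∈ T, (sw a b v - sw a b (sw c d v)))]
  refine Finset.sum_congr rfl fun c _ => ?_
  rw [← key (fun d => sw a b v - sw a b (sw (swap a b c) d v))]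

/-- the sum over the translates of a vector fixed by the permutations of `S` is fixed by the
permutations of `insert i S` -/
lemma fixed_sum {S : Finset α} {i : α} (hi : i ∉ S) {v : EE α}
    (hv : ∀ a ∈ S, ∀ b ∈ S, sw a b v = v) :
    ∀ a ∈ insert i S, ∀ b ∈ insert i S,
      sw a b (∑ j ∈ insert i S, sw i j v) = ∑ j ∈ insert i S, sw i j v := by
  have hv' : ∀ a ∈ S, ∀ b ∈ S, ∀ x, v (swap a b * x) = v x := by
    intro a ha b hb x
    rw [← sw_apply, hv a ha b hb]
  -- the key identity
  have key : ∀ a ∈ insert i S, ∀ b ∈ insert i S, ∀ j ∈ insert i S,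
      sw a b (sw i j v) = sw i (swap a b j) v := by
    intro a ha b hb j hj
    by_cases hab : a = b
    · subst hab
      rw [sw_self]
      have h : (swap a a : Perm α) = 1 := swap_self a
      rw [h, Perm.one_apply]
    -- reduce to the case where only the first point can be equal to `i`
    have main : ∀ u ∈ insert i S, ∀ w ∈ S, u ≠ w → sw u w (sw i j v) = sw i (swap u w j) v := by
      clear ha hb hab
      intro u hu w hw huw
      rw [Finset.mem_insert] at hu hj
      ext x
      simp only [sw_apply]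
      rcases hu with hu | hu
      · -- `u = i`
        rw [hu] at huw ⊢
        rcases hj with hj | hj
        · have h : (swap i i : Perm α) = 1 := swap_self i
          rw [hj, h, one_mul, swap_apply_left]
        · by_cases hjw : j = w
          · rw [hjw, ← mul_assoc, swap_mul_self, one_mul, swap_apply_right]
            have h : (swap i i : Perm α) = 1 := swap_self i
            rw [h, one_mul]
          · have hji : j ≠ i := fun h => hi (h ▸ hj)
            rw [swap_apply_of_ne_of_ne hji hjw, ← mul_assoc, mul_swap_eq_swap_mul,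
              swap_apply_left, swap_apply_of_ne_of_ne huw.symm (Ne.symm hjw), mul_assoc,
              hv' j hj w hw]
      · have hui : i ≠ u := fun h => hi (h ▸ hu)
        have hwi : i ≠ w := fun h => hi (h ▸ hw)
        rw [← mul_assoc, swap_mul_eq_mul_swap, swap_inv, swap_apply_of_ne_of_ne hui hwi,
          mul_assoc, hv' u hu w hw]
    rw [Finset.mem_insert] at hb
    rcases hb with rfl | hb
    · rw [Finset.mem_insert] at ha
      rcases ha with rfl | ha
      · exact absurd rfl hab
      · rw [sw_comm a b, swap_comm a b]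
        exact main b (Finset.mem_insert_self _ _) a ha (Ne.symm hab)
    · exact main a ha b hb hab
  intro a ha b hb
  rw [map_sum, Finset.sum_congr rfl (key a ha b hb)]
  refine Finset.sum_equiv (swap a b) (fun c => ⟨fun h => swap_mem ha hb h, fun h => ?_⟩)
    (fun _ _ => rfl)
  have := swap_mem ha hb h
  rwa [swap_apply_self] at this

end Pool.Agent.Helper353.Oct
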