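import Pool.Agent.Helper353.Oct.Level

/-!
The lower bound for the interchange form of the complete graph.
-/

open scoped BigOperators InnerProductSpace

namespace Pool.Agent.Helper353.Oct

open Equiv Module.End

variable {α : Type*} [Fintype α] [DecidableEq α]

lemma AT_mem {T : Finset α} {U : Submodule ℝ (EE α)}
    (hU : ∀ a ∈ T, ∀ b ∈ T, ∀ v ∈ U, sw a b v ∈ U) : ∀ v ∈ U, AT T v ∈ U := by
  intro v hv
  rw [AT_apply]
  exact U.sum_mem fun a ha => U.sum_mem fun b hb => U.sub_mem hv (hU a ha b hb v hv)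

open scoped Classical in
theorem level : ∀ (N : ℕ) (T : Finset α), T.card = N → ∀ (U : Submodule ℝ (EE α)),
    (∀ a ∈ T, ∀ b ∈ T, ∀ v ∈ U, sw a b v ∈ U) → ∀ m : ℕ,
    (∀ S ⊆ T, S.card = m + 1 → ∀ v ∈ U, (∀ a ∈ S, ∀ b ∈ S, sw a b v = v) → v = 0) →
    ∀ v ∈ U, ((T.card : ℝ) - m) * ((T.card : ℝ) + 2) * ‖v‖ ^ 2 ≤ ⟪AT T v, v⟫_ℝ := by
  intro N
  induction N using Nat.strong_induction_on with
  | _ N ih =>
  intro T hT U hU m hm v hv
  by_cases hle : T.card ≤ m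
  · have h1 := AT_nonneg T v
    have h2 : ((T.card : ℝ) - m) ≤ 0 := by
      have : (T.card : ℝ) ≤ m := by exact_mod_cast hle
      linarith
    have h3 : 0 ≤ ((T.card : ℝ) + 2) * ‖v‖ ^ 2 := by positivity
    have h4 := mul_nonpos_of_nonpos_of_nonneg h2 h3
    rw [← mul_assoc] at h4
    linarith
  push Not at hle
  by_cases hbot : U = ⊥
  · rw [hbot, Submodule.mem_bot] at hv
    rw [hv]
    simp
  have : Nontrivial U := Submodule.nontrivial_iff_ne_bot.2 hbot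
  have hAU := AT_mem hU
  set A' : U →ₗ[ℝ] U := (AT T).restrict hAU with hA'
  have hsym : A'.IsSymmetric := (AT_symm T).restrict_invariant hAU
  have heig := hsym.hasEigenvalue_iInf_of_finiteDimensional
  set lam : ℝ := ⨅ x : { x : U // x ≠ 0 }, RCLike.re ⟪A' x, x⟫_ℝ / ‖(x : U)‖ ^ 2 with hlam
  have hA'c : ∀ w : U, ⟪A' w, w⟫_ℝ = ⟪AT T (w : EE α), (w : EE α)⟫_ℝ := by
    intro w
    rw [Submodule.coe_inner]
    rfl
  have hray : ∀ w ∈ U, lam * ‖w‖ ^ 2 ≤ ⟪AT T w, w⟫_ℝ := by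
    intro w hw
    by_cases hw0 : w = 0
    · rw [hw0]; simp
    have hw0' : (⟨w, hw⟩ : U) ≠ 0 := by
      intro h
      exact hw0 (congrArg Subtype.val h)
    have h1 : lam ≤ RCLike.re ⟪A' ⟨w, hw⟩, ⟨w, hw⟩⟫_ℝ / ‖(⟨w, hw⟩ : U)‖ ^ 2 := by
      refine ciInf_le ⟨0, ?_⟩ (⟨⟨w, hw⟩, hw0'⟩ : { x : U // x ≠ 0 })
      rintro _ ⟨x, rfl⟩
      refine div_nonneg ?_ (sq_nonneg _)
      have := AT_nonneg T (x.1 : EE α)
      rw [← hA'c] at this
      simpa using this
    have h2 : 0 < ‖w‖ ^ 2 := by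
      have := norm_pos_iff.2 hw0
      positivity
    rw [hA'c] at h1
    have h3 : ‖(⟨w, hw⟩ : U)‖ = ‖w‖ := rfl
    rw [h3, le_div_iff₀ h2] at h1
    simpa using h1
  obtain ⟨v0, hv0⟩ := heig.exists_hasEigenvector
  have hv0ne : (v0 : EE α) ≠ 0 := by
    intro h
    exact hv0.2 (Subtype.ext h)
  have hv0eq : AT T (v0 : EE α) = lam • (v0 : EE α) := by
    have := hv0.apply_eq_smul
    have h2 := congrArg Subtype.val this
    simpa [hA'] using h2
  set Ul : Submodule ℝ (EE α) := U ⊓ LinearMap.ker (AT T - lam • LinearMap.id) with hUl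
  have memUl : ∀ w, w ∈ Ul ↔ w ∈ U ∧ AT T w = lam • w := by
    intro w
    rw [hUl, Submodule.mem_inf, LinearMap.mem_ker, LinearMap.sub_apply, LinearMap.smul_apply,
      LinearMap.id_apply, sub_eq_zero]
  have hUlinv : ∀ a ∈ T, ∀ b ∈ T, ∀ w ∈ Ul, sw a b w ∈ Ul := by
    intro a ha b hb w hw
    rw [memUl] at hw ⊢
    refine ⟨hU a ha b hb w hw.1, ?_⟩
    rw [AT_sw ha hb, hw.2, map_smul]
  set F := T.powerset.filter (fun S => ∃ w ∈ Ul, w ≠ 0 ∧ ∀ a ∈ S, ∀ b ∈ S, sw a b w = w) with hF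
  have hFne : F.Nonempty := by
    refine ⟨∅, ?_⟩
    rw [hF, Finset.mem_filter]
    exact ⟨Finset.empty_mem_powerset _, v0, (memUl _).2 ⟨v0.2, hv0eq⟩, hv0ne, by simp⟩
  obtain ⟨S, hSF, hmax⟩ := F.exists_max_image Finset.card hFne
  rw [hF, Finset.mem_filter, Finset.mem_powerset] at hSF
  obtain ⟨hST, v1, hv1, hv1ne, hv1fix⟩ := hSF
  have hmax' : ∀ S' ⊆ T, S.card < S'.card → ∀ w ∈ Ul, (∀ a ∈ S', ∀ b ∈ S', sw a b w = w) →
      w = 0 := by
    intro S' hS' hlt w hw hfix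
    by_contra hne
    have : S' ∈ F := by
      rw [hF, Finset.mem_filter, Finset.mem_powerset]
      exact ⟨hS', w, hw, hne, hfix⟩
    have := hmax S' this
    omega
  -- the size of `S`
  have hS1 : 1 ≤ S.card := by
    have hTne : T.Nonempty := by
      rw [← Finset.card_pos]; omega
    obtain ⟨t, ht⟩ := hTne
    have : ({t} : Finset α) ∈ F := by
      rw [hF, Finset.mem_filter, Finset.mem_powerset]
      refine ⟨Finset.singleton_subset_iff.2 ht, v0, (memUl _).2 ⟨v0.2, hv0eq⟩, hv0ne, ?_⟩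
      intro a ha b hb
      rw [Finset.mem_singleton] at ha hb
      rw [ha, hb, sw_self]
    have := hmax _ this
    rwa [Finset.card_singleton] at this
  have hSm : S.card ≤ m := by
    by_contra hlt
    push Not at hlt
    obtain ⟨S', hS'S, hS'c⟩ := Finset.exists_subset_card_eq (show m + 1 ≤ S.card by omega)
    refine hv1ne (hm S' (hS'S.trans hST) hS'c v1 ((memUl _).1 hv1).1 ?_)
    exact fun a ha b hb => hv1fix a (hS'S ha) b (hS'S hb)
  set T' := T \ S with hT'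
  have hcard : (T'.card : ℝ) = T.card - S.card := by
    have := Finset.card_sdiff_add_card_eq_card hST
    rw [← this, hT']
    push_cast
    ring
  have hcardN : T'.card + S.card = T.card := Finset.card_sdiff_add_card_eq_card hST
  -- the induction hypothesis
  set U' : Submodule ℝ (EE α) :=
    { carrier := {w | w ∈ Ul ∧ ∀ a ∈ S, ∀ b ∈ S, sw a b w = w}
      add_mem' := by
        rintro w w' ⟨h1, h2⟩ ⟨h3, h4⟩
        refine ⟨Ul.add_mem h1 h3, fun a ha b hb => ?_⟩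
        rw [map_add, h2 a ha b hb, h4 a ha b hb]
      zero_mem' := ⟨Ul.zero_mem, fun a _ b _ => map_zero _⟩
      smul_mem' := by
        rintro r w ⟨h1, h2⟩
        refine ⟨Ul.smul_mem r h1, fun a ha b hb => ?_⟩
        rw [map_smul, h2 a ha b hb] } with hU'
  have hih : ((T'.card : ℝ) - S.card) * ((T'.card : ℝ) + 2) * ‖v1‖ ^ 2 ≤ ⟪AT T' v1, v1⟫_ℝ := by
    refine ih T'.card (by omega) T' rfl U' ?_ S.card ?_ v1 ⟨hv1, hv1fix⟩
    · rintro c hc d hd w ⟨hw1, hw2⟩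
      rw [hT', Finset.mem_sdiff] at hc hd
      refine ⟨hUlinv c hc.1 d hd.1 w hw1, fun a ha b hb => ?_⟩
      have e1 := sw_conj c d a b w
      have hac : a ≠ c := fun h => hc.2 (h ▸ ha)
      have had : a ≠ d := fun h => hd.2 (h ▸ ha)
      have hbc : b ≠ c := fun h => hc.2 (h ▸ hb)
      have hbd : b ≠ d := fun h => hd.2 (h ▸ hb)
      rw [swap_apply_of_ne_of_ne hac had, swap_apply_of_ne_of_ne hbc hbd, hw2 a ha b hb] at e1
      exact e1
    · rintro S'' hS'' hc w ⟨hw1, hw2⟩ hfix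
      exact hmax' S'' (hS''.trans Finset.sdiff_subset) (by omega) w hw1 hfix
  -- the sums over cosets vanish
  have hsum : ∀ i ∈ T', ∑ j ∈ S, sw i j v1 = -v1 := by
    intro i hi
    rw [hT', Finset.mem_sdiff] at hi
    have h1 := fixed_sum hi.2 hv1fix
    have h2 : ∑ j ∈ insert i S, sw i j v1 ∈ Ul := by
      refine Ul.sum_mem fun j hj => ?_
      rw [Finset.mem_insert] at hj
      rcases hj with rfl | hj
      · exact hUlinv _ hi.1 _ hi.1 _ hv1
      · exact hUlinv _ hi.1 _ (hST hj) _ hv1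
    have h3 := hmax' (insert i S) (Finset.insert_subset hi.1 hST)
      (by rw [Finset.card_insert_of_notMem hi.2]; omega) _ h2 h1
    rw [Finset.sum_insert hi.2, sw_self] at h3
    exact (neg_eq_of_add_eq_zero_right h3).symm
  -- the decomposition of the form
  have hdecomp : ⟪AT T v1, v1⟫_ℝ = ⟪AT T' v1, v1⟫_ℝ +
      2 * ((T'.card : ℝ) * ((S.card : ℝ) + 1) * ‖v1‖ ^ 2) := by
    have e0 : ∀ G : α → ℝ, ∑ a ∈ T, G a = ∑ a ∈ T', G a + ∑ a ∈ S, G a := fun G =>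
      (Finset.sum_sdiff hST).symm
    rw [AT_inner, AT_inner, e0]
    have e1 : ∀ i ∈ T', ∑ j ∈ S, ⟪v1 - sw i j v1, v1⟫_ℝ = ((S.card : ℝ) + 1) * ‖v1‖ ^ 2 := by
      intro i hi
      rw [← sum_inner, Finset.sum_sub_distrib, hsum i hi, Finset.sum_const, sub_neg_eq_add,
        inner_add_left, real_inner_self_eq_norm_sq, ← Nat.cast_smul_eq_nsmul ℝ, real_inner_smul_left,
        real_inner_self_eq_norm_sq]
      ring
    have e2 : ∑ a ∈ T', ∑ b ∈ T, ⟪v1 - sw a b v1, v1⟫_ℝ =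
        ∑ a ∈ T', ∑ b ∈ T', ⟪v1 - sw a b v1, v1⟫_ℝ +
          (T'.card : ℝ) * (((S.card : ℝ) + 1) * ‖v1‖ ^ 2) := by
      have : ∀ a ∈ T', ∑ b ∈ T, ⟪v1 - sw a b v1, v1⟫_ℝ =
          ∑ b ∈ T', ⟪v1 - sw a b v1, v1⟫_ℝ + ((S.card : ℝ) + 1) * ‖v1‖ ^ 2 := by
        intro a ha
        rw [e0, e1 a ha]
      rw [Finset.sum_congr rfl this, Finset.sum_add_distrib, Finset.sum_const, nsmul_eq_mul]
    have e3 : ∑ a ∈ S, ∑ b ∈ T, ⟪v1 - sw a b v1, v1⟫_ℝ =
        (T'.card : ℝ) * (((S.card : ℝ) + 1) * ‖v1‖ ^ 2) := by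
      have h1 : ∀ a ∈ S, ∑ b ∈ T, ⟪v1 - sw a b v1, v1⟫_ℝ =
          ∑ b ∈ T', ⟪v1 - sw b a v1, v1⟫_ℝ := by
        intro a ha
        rw [e0]
        have : ∑ b ∈ S, ⟪v1 - sw a b v1, v1⟫_ℝ = 0 := by
          refine Finset.sum_eq_zero fun b hb => ?_
          rw [hv1fix a ha b hb, sub_self, inner_zero_left]
        rw [this, add_zero]
        exact Finset.sum_congr rfl fun b _ => by rw [sw_comm]
      rw [Finset.sum_congr rfl h1, Finset.sum_comm, Finset.sum_congr rfl e1, Finset.sum_const,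
        nsmul_eq_mul]
    rw [e2, e3]
    ring
  -- conclusion
  have hv1pos : 0 < ‖v1‖ ^ 2 := by
    have := norm_pos_iff.2 hv1ne
    positivity
  have hlam1 : ⟪AT T v1, v1⟫_ℝ = lam * ‖v1‖ ^ 2 := by
    rw [((memUl _).1 hv1).2, real_inner_smul_left, real_inner_self_eq_norm_sq]
  have hk : (0 : ℝ) ≤ T'.card := Nat.cast_nonneg _
  have hs1 : (1 : ℝ) ≤ S.card := by exact_mod_cast hS1
  have hsm : (S.card : ℝ) ≤ m := by exact_mod_cast hSm
  have hTc : (T.card : ℝ) = T'.card + S.card := by rw [hcard]; ring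
  have hAT' := AT_nonneg T' v1
  have hlamge : (T'.card : ℝ) * ((T.card : ℝ) + 2) ≤ lam := by
    rw [hlam1] at hdecomp
    rcases le_or_gt (S.card : ℝ) (T'.card : ℝ) with hks | hks
    · have h1 : (T'.card : ℝ) * ((T.card : ℝ) + 2) * ‖v1‖ ^ 2 ≤ lam * ‖v1‖ ^ 2 := by
        rw [hdecomp, hTc]
        have h2 : (T'.card : ℝ) * (T'.card + S.card + 2) ≤
            ((T'.card : ℝ) - S.card) * ((T'.card : ℝ) + 2) +
              2 * ((T'.card : ℝ) * ((S.card : ℝ) + 1)) := by nlinarith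
        have h3 := mul_le_mul_of_nonneg_right h2 hv1pos.le
        nlinarith
      exact le_of_mul_le_mul_right h1 hv1pos
    · have h1 : (T'.card : ℝ) * ((T.card : ℝ) + 2) * ‖v1‖ ^ 2 ≤ lam * ‖v1‖ ^ 2 := by
        rw [hdecomp, hTc]
        have h2 : (T'.card : ℝ) * (T'.card + S.card + 2) ≤
              2 * ((T'.card : ℝ) * ((S.card : ℝ) + 1)) := by nlinarith
        have h3 := mul_le_mul_of_nonneg_right h2 hv1pos.le
        nlinarith
      exact le_of_mul_le_mul_right h1 hv1pos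
  have hfin : ((T.card : ℝ) - m) * ((T.card : ℝ) + 2) ≤ lam := by
    refine le_trans ?_ hlamge
    have hT0 : (0 : ℝ) ≤ (T.card : ℝ) + 2 := by
      have := Nat.cast_nonneg (α := ℝ) T.card
      linarith
    refine mul_le_mul_of_nonneg_right ?_ hT0
    linarith
  refine le_trans ?_ (hray v hv)
  exact mul_le_mul_of_nonneg_right hfin (sq_nonneg _)

end Pool.Agent.Helper353.Oct
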