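import Mathlib

/-!
Positive semidefinite elements of group algebras of small symmetric groups.
-/

open scoped BigOperators

namespace Pool.Agent.Helper353.Oct

open Equiv

variable {α : Type*} [Fintype α] [DecidableEq α]

/-- correlation of a function with its translate -/
noncomputable def ps (f : Perm α → ℝ) (g : Perm α) : ℝ := ∑ x, f (g * x) * f x

lemma ip_eq (f : Perm α → ℝ) (a b : Perm α) :
    ∑ x, f (a * x) * f (b * x) = ps f (a * b⁻¹) := by
  unfold ps
  rw [← Equiv.sum_comp (Equiv.mulLeft b) (fun x => f (a * b⁻¹ * x) * f x)]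
  refine Finset.sum_congr rfl fun x _ => ?_
  simp [mul_assoc]

lemma ps_inv (f : Perm α → ℝ) (g : Perm α) : ps f g⁻¹ = ps f g := by
  have h := ip_eq f 1 g
  rw [one_mul] at h
  rw [← h]
  unfold ps
  exact Finset.sum_congr rfl fun x _ => by rw [one_mul, mul_comm]

lemma ps_comm (f : Perm α → ℝ) (a b c d : α) :
    ps f (swap a b * swap c d) = ps f (swap c d * swap a b) := by
  rw [← ps_inv, mul_inv_rev, swap_inv, swap_inv]

lemma list_sum_eq {k : ℕ} (L : List (ℤ × Perm (Fin k))) (H : Perm (Fin k) → ℤ)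
    (hA : ∀ g, H g = (L.map (fun t => if t.2 = g then t.1 else 0)).sum) (F : Perm (Fin k) → ℝ) :
    (L.map (fun t => (t.1 : ℝ) * F t.2)).sum = ∑ g, (H g : ℝ) * F g := by
  have h1 : ∀ g, (H g : ℝ) = (L.map (fun t => if t.2 = g then (t.1 : ℝ) else 0)).sum := by
    intro g
    rw [hA g]
    clear hA
    induction L with
    | nil => simp
    | cons t L ih =>
      simp only [List.map_cons, List.sum_cons]
      rw [Int.cast_add, ih]
      congr 1
      split_ifs <;> simp
  simp_rw [h1]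
  clear h1 hA
  induction L with
  | nil => simp
  | cons t L ih =>
    simp only [List.map_cons, List.sum_cons, add_mul, Finset.sum_add_distrib]
    rw [ih]
    congr 1
    simp

/-- an element of the group algebra whose square is a positive multiple of itself defines a
nonnegative form -/
theorem psd_list {k : ℕ} (Φ : Perm (Fin k) →* Perm α) (L : List (ℤ × Perm (Fin k)))
    (H : Perm (Fin k) → ℤ) (κ : ℤ) (hκ : 0 < κ)
    (hA : ∀ g, H g = (L.map (fun t => if t.2 = g then t.1 else 0)).sum)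
    (hB : ∀ g, (L.map (fun t => t.1 * H (g * t.2))).sum = κ * H g) (f : Perm α → ℝ) :
    0 ≤ (L.map (fun t => (t.1 : ℝ) * ps f (Φ t.2))).sum := by
  rw [list_sum_eq L H hA (fun g => ps f (Φ g))]
  have h1 : 0 ≤ ∑ x, (∑ g, (H g : ℝ) * f (Φ g * x)) ^ 2 :=
    Finset.sum_nonneg fun x _ => sq_nonneg _
  have h2 : ∑ x, (∑ g, (H g : ℝ) * f (Φ g * x)) ^ 2 =
      ∑ h, (H h : ℝ) * ∑ g, (H g : ℝ) * ps f (Φ (g * h⁻¹)) := by
    have e1 : ∀ x, (∑ g, (H g : ℝ) * f (Φ g * x)) ^ 2 =
        ∑ h, ∑ g, (H h : ℝ) * ((H g : ℝ) * (f (Φ g * x) * f (Φ h * x))) := by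
      intro x
      rw [pow_two, Finset.sum_mul_sum, Finset.sum_comm]
      refine Finset.sum_congr rfl fun h _ => Finset.sum_congr rfl fun g _ => by ring
    simp_rw [e1]
    rw [Finset.sum_comm]
    refine Finset.sum_congr rfl fun h _ => ?_
    rw [Finset.sum_comm, Finset.mul_sum]
    refine Finset.sum_congr rfl fun g _ => ?_
    rw [map_mul, map_inv, ← ip_eq, Finset.mul_sum, Finset.mul_sum]
  have h3 : ∑ h, (H h : ℝ) * ∑ g, (H g : ℝ) * ps f (Φ (g * h⁻¹)) =
      ∑ g, ps f (Φ g) * ∑ h, (H h : ℝ) * (H (g * h) : ℝ) := by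
    have e2 : ∀ h : Perm (Fin k), ∑ g, (H g : ℝ) * ps f (Φ (g * h⁻¹)) =
        ∑ g, (H (g * h) : ℝ) * ps f (Φ g) := by
      intro h
      rw [← Equiv.sum_comp (Equiv.mulRight h) (fun g => (H g : ℝ) * ps f (Φ (g * h⁻¹)))]
      refine Finset.sum_congr rfl fun g _ => ?_
      simp
    simp_rw [e2, Finset.mul_sum]
    rw [Finset.sum_comm]
    refine Finset.sum_congr rfl fun g _ => Finset.sum_congr rfl fun h _ => by ring
  have h4 : ∀ g, ∑ h, (H h : ℝ) * (H (g * h) : ℝ) = (κ : ℝ) * H g := by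
    intro g
    rw [← list_sum_eq L H hA (fun h => (H (g * h) : ℝ))]
    have h5 := hB g
    have h6 : (((L.map (fun t => t.1 * H (g * t.2))).sum : ℤ) : ℝ) =
        (L.map (fun t => (t.1 : ℝ) * (H (g * t.2) : ℝ))).sum := by
      clear hA hB h1 h2 h3 h5
      induction L with
      | nil => simp
      | cons t L ih =>
        simp only [List.map_cons, List.sum_cons]
        rw [Int.cast_add, Int.cast_mul, ih]
    rw [← h6, h5]
    push_cast
    ring
  rw [h2, h3] at h1
  simp_rw [h4] at h1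
  have h7 : ∑ g, ps f (Φ g) * ((κ : ℝ) * H g) = κ * ∑ g, (H g : ℝ) * ps f (Φ g) := by
    rw [Finset.mul_sum]
    exact Finset.sum_congr rfl fun g _ => by ring
  rw [h7] at h1
  have hκ' : (0 : ℝ) < κ := by exact_mod_cast hκ
  exact nonneg_of_mul_nonneg_right h1 hκ'

/-- the element for four points -/
def L4 : List (ℤ × Perm (Fin 4)) :=
  [(2, 1), (2, swap 0 1 * swap 2 3), (2, swap 0 2 * swap 1 3), (2, swap 0 3 * swap 1 2),
   (-1, swap 0 1 * swap 0 2), (-1, swap 0 2 * swap 0 1), (-1, swap 0 1 * swap 0 3),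
   (-1, swap 0 3 * swap 0 1), (-1, swap 0 2 * swap 0 3), (-1, swap 0 3 * swap 0 2),
   (-1, swap 1 2 * swap 1 3), (-1, swap 1 3 * swap 1 2)]

/-- its coefficients -/
def H4 (g : Perm (Fin 4)) : ℤ :=
  if (Finset.univ.filter (fun a => g a = a)).card = 4 then 2
  else if (Finset.univ.filter (fun a => g a = a)).card = 1 then -1
  else if (Finset.univ.filter (fun a => g a = a)).card = 0 ∧ ∀ a, g (g a) = a then 2 else 0

/-- the element for five points -/
def L5 : List (ℤ × Perm (Fin 5)) :=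
  [(6, 1), (-2, swap 0 1 * swap 0 2), (-2, swap 0 2 * swap 0 1), (-2, swap 0 1 * swap 0 3),
   (-2, swap 0 3 * swap 0 1), (-2, swap 0 1 * swap 0 4), (-2, swap 0 4 * swap 0 1),
   (-2, swap 0 2 * swap 0 3), (-2, swap 0 3 * swap 0 2), (-2, swap 0 2 * swap 0 4),
   (-2, swap 0 4 * swap 0 2), (-2, swap 0 3 * swap 0 4), (-2, swap 0 4 * swap 0 3),
   (2, swap 0 1 * swap 2 3), (2, swap 0 1 * swap 2 4), (2, swap 0 1 * swap 3 4),
   (2, swap 0 2 * swap 1 3), (2, swap 0 2 * swap 1 4), (2, swap 0 2 * swap 3 4),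
   (2, swap 0 3 * swap 1 2), (2, swap 0 3 * swap 1 4), (2, swap 0 3 * swap 2 4),
   (2, swap 0 4 * swap 1 2), (2, swap 0 4 * swap 1 3), (2, swap 0 4 * swap 2 3),
   (-2, swap 1 2 * swap 3 4), (-2, swap 1 3 * swap 2 4), (-2, swap 1 4 * swap 2 3)]

/-- its coefficients -/
def H5 (g : Perm (Fin 5)) : ℤ :=
  if g 0 = 0 then
    (if g 1 = 1 ∧ g 2 = 2 ∧ g 3 = 3 then 6
     else if g 1 ≠ 1 ∧ g 2 ≠ 2 ∧ g 3 ≠ 3 ∧ g 4 ≠ 4 ∧ g (g 1) = 1 ∧ g (g 2) = 2 ∧ g (g 3) = 3
      then -2 else 0)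
  else if (Finset.univ.filter (fun a => g a = a)).card = 2 then -2
  else if (Finset.univ.filter (fun a => g a = a)).card = 1 ∧ ∀ a, g (g a) = a then 2 else 0

set_option maxRecDepth 100000 in
lemma hA4 : ∀ g, H4 g = (L4.map (fun t => if t.2 = g then t.1 else 0)).sum := by
  decide +kernel

set_option maxRecDepth 100000 in
lemma hB4 : ∀ g, (L4.map (fun t => t.1 * H4 (g * t.2))).sum = 12 * H4 g := by
  decide +kernel

set_option maxRecDepth 100000 in
lemma hA5 : ∀ g, H5 g = (L5.map (fun t => if t.2 = g then t.1 else 0)).sum := by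
  decide +kernel

set_option maxRecDepth 100000 in
lemma hB5 : ∀ g, (L5.map (fun t => t.1 * H5 (g * t.2))).sum = 24 * H5 g := by
  decide +kernel

end Pool.Agent.Helper353.Oct
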