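import Pool.Agent.Helper353.Oct.Psd

/-!
The quartic form behind the octopus inequality is nonnegative term by term.
-/

open scoped BigOperators

namespace Pool.Agent.Helper353.Oct

open Equiv

variable {α : Type*} [Fintype α] [DecidableEq α]

lemma hom_swap {k : ℕ} (ι : Fin k ↪ α) (a b : Fin k) :
    Perm.viaEmbeddingHom ι (swap a b) = swap (ι a) (ι b) := by
  ext y
  rw [Perm.viaEmbeddingHom_apply]
  by_cases hy : y ∈ Set.range ι
  · obtain ⟨z, rfl⟩ := hy
    rw [Perm.viaEmbedding_apply, swap_apply_def, swap_apply_def]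
    split_ifs with h1 h2 h3 h4 h5 h6 <;> simp_all
  · rw [Perm.viaEmbedding_apply_of_notMem _ _ _ hy, swap_apply_of_ne_of_ne]
    · rintro rfl; exact hy ⟨a, rfl⟩
    · rintro rfl; exact hy ⟨b, rfl⟩

lemma psd4 (f : Perm α → ℝ) {o i k l : α} (h1 : o ≠ i) (h2 : o ≠ k) (h3 : o ≠ l) (h4 : i ≠ k)
    (h5 : i ≠ l) (h6 : k ≠ l) :
    0 ≤ 2 * ps f 1 + 2 * ps f (swap o i * swap k l) + 2 * ps f (swap o k * swap i l) +
      2 * ps f (swap o l * swap i k) - ps f (swap o i * swap o k) - ps f (swap o k * swap o i) -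
      ps f (swap o i * swap o l) - ps f (swap o l * swap o i) - ps f (swap o k * swap o l) -
      ps f (swap o l * swap o k) - ps f (swap i k * swap i l) - ps f (swap i l * swap i k) := by
  have hinj : Function.Injective ![o, i, k, l] := by
    intro a b hab
    fin_cases a <;> fin_cases b <;> simp_all
  set ι : Fin 4 ↪ α := ⟨![o, i, k, l], hinj⟩ with hι
  have h := psd_list (Perm.viaEmbeddingHom ι) L4 H4 12 (by norm_num) hA4 hB4 f
  simp only [L4, List.map_cons, List.map_nil, List.sum_cons, List.sum_nil, map_mul, map_one,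
    hom_swap] at h
  have e0 : ι 0 = o := rfl
  have e1 : ι 1 = i := rfl
  have e2 : ι 2 = k := rfl
  have e3 : ι 3 = l := rfl
  rw [e0, e1, e2, e3] at h
  push_cast at h
  linarith

lemma psd5 (f : Perm α → ℝ) {o i j k l : α} (h1 : o ≠ i) (h2 : o ≠ j) (h3 : o ≠ k) (h4 : o ≠ l)
    (h5 : i ≠ j) (h6 : i ≠ k) (h7 : i ≠ l) (h8 : j ≠ k) (h9 : j ≠ l) (h10 : k ≠ l) :
    0 ≤ 6 * ps f 1 - 2 * ps f (swap o i * swap o j) - 2 * ps f (swap o j * swap o i)
      - 2 * ps f (swap o i * swap o k) - 2 * ps f (swap o k * swap o i)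
      - 2 * ps f (swap o i * swap o l) - 2 * ps f (swap o l * swap o i)
      - 2 * ps f (swap o j * swap o k) - 2 * ps f (swap o k * swap o j)
      - 2 * ps f (swap o j * swap o l) - 2 * ps f (swap o l * swap o j)
      - 2 * ps f (swap o k * swap o l) - 2 * ps f (swap o l * swap o k)
      + 2 * ps f (swap o i * swap j k) + 2 * ps f (swap o i * swap j l)
      + 2 * ps f (swap o i * swap k l) + 2 * ps f (swap o j * swap i k)
      + 2 * ps f (swap o j * swap i l) + 2 * ps f (swap o j * swap k l)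
      + 2 * ps f (swap o k * swap i j) + 2 * ps f (swap o k * swap i l)
      + 2 * ps f (swap o k * swap j l) + 2 * ps f (swap o l * swap i j)
      + 2 * ps f (swap o l * swap i k) + 2 * ps f (swap o l * swap j k)
      - 2 * ps f (swap i j * swap k l) - 2 * ps f (swap i k * swap j l)
      - 2 * ps f (swap i l * swap j k) := by
  have hinj : Function.Injective ![o, i, j, k, l] := by
    intro a b hab
    fin_cases a <;> fin_cases b <;> simp_all
  set ι : Fin 5 ↪ α := ⟨![o, i, j, k, l], hinj⟩ with hι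
  have h := psd_list (Perm.viaEmbeddingHom ι) L5 H5 24 (by norm_num) hA5 hB5 f
  simp only [L5, List.map_cons, List.map_nil, List.sum_cons, List.sum_nil, map_mul, map_one,
    hom_swap] at h
  have e0 : ι 0 = o := rfl
  have e1 : ι 1 = i := rfl
  have e2 : ι 2 = j := rfl
  have e3 : ι 3 = k := rfl
  have e4 : ι 4 = l := rfl
  rw [e0, e1, e2, e3, e4] at h
  push_cast at h
  linarith

/-- the two kinds of products of transpositions on three points -/
lemma cyc3 {o i l : α} (h1 : o ≠ i) (h2 : o ≠ l) (h3 : i ≠ l) :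
    swap o i * swap i l = swap o l * swap o i := by
  have hinj : Function.Injective ![o, i, l] := by
    intro a b hab
    fin_cases a <;> fin_cases b <;> simp_all
  set ι : Fin 3 ↪ α := ⟨![o, i, l], hinj⟩ with hι
  have h : (swap 0 1 * swap 1 2 : Perm (Fin 3)) = swap 0 2 * swap 0 1 := by decide
  have h' := congrArg (Perm.viaEmbeddingHom ι) h
  simp only [map_mul, hom_swap] at h'
  exact h'

/-- coefficients of the constant term -/
noncomputable def al (i j : α) : ℝ := if i = j then 1 else 1 / 2

/-- the operators -/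
noncomputable def xx (f : Perm α → ℝ) (o i j : α) (x : Perm α) : ℝ :=
  if i = j then f (swap o i * x)
  else (f (swap o i * x) + f (swap o j * x) - f (swap i j * x)) / 2

/-- the elementary forms -/
noncomputable def dd (f : Perm α → ℝ) (o i j k l : α) : ℝ :=
  al i j * al k l * ps f 1 - ∑ x, xx f o i j x * xx f o k l x

/-- the symmetrized forms -/
noncomputable def SS (f : Perm α → ℝ) (o i j k l : α) : ℝ :=
  dd f o i j k l + dd f o i k j l + dd f o i l j k

lemma al_symm (i j : α) : al i j = al j i := by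
  unfold al
  simp only [eq_comm]

lemma xx_symm (f : Perm α → ℝ) (o i j : α) (x : Perm α) : xx f o i j x = xx f o j i x := by
  unfold xx
  by_cases h : i = j
  · subst h; rfl
  · rw [if_neg h, if_neg (Ne.symm h), swap_comm i j]
    ring

lemma dd_symm1 (f : Perm α → ℝ) (o i j k l : α) : dd f o i j k l = dd f o j i k l := by
  unfold dd
  rw [al_symm i j]
  simp_rw [xx_symm f o i j]

lemma dd_symm2 (f : Perm α → ℝ) (o i j k l : α) : dd f o i j k l = dd f o i j l k := by
  unfold dd
  rw [al_symm k l]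
  simp_rw [xx_symm f o k l]

lemma dd_symm3 (f : Perm α → ℝ) (o i j k l : α) : dd f o i j k l = dd f o k l i j := by
  unfold dd
  rw [mul_comm (al i j)]
  congr 1
  exact Finset.sum_congr rfl fun x _ => mul_comm _ _

lemma SS_12 (f : Perm α → ℝ) (o i j k l : α) : SS f o i j k l = SS f o j i k l := by
  unfold SS
  rw [dd_symm1 f o i j k l, dd_symm3 f o j k i l, dd_symm3 f o j l i k]
  ring

lemma SS_23 (f : Perm α → ℝ) (o i j k l : α) : SS f o i j k l = SS f o i k j l := by
  unfold SS
  rw [dd_symm2 f o i l j k]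
  ring

lemma SS_34 (f : Perm α → ℝ) (o i j k l : α) : SS f o i j k l = SS f o i j l k := by
  unfold SS
  rw [dd_symm2 f o i j k l, dd_symm2 f o i k j l, dd_symm2 f o i l j k]
  rw [dd_symm2 f o i k l j, dd_symm2 f o i l k j]
  ring

lemma ip_ee (f : Perm α → ℝ) (o i k : α) :
    ∑ x, xx f o i i x * xx f o k k x = ps f (swap o i * swap o k) := by
  simp only [xx, if_true]
  rw [ip_eq, swap_inv]

lemma ip_en (f : Perm α → ℝ) (o i : α) {k l : α} (hkl : k ≠ l) :
    ∑ x, xx f o i i x * xx f o k l x = (ps f (swap o i * swap o k) +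
      ps f (swap o i * swap o l) - ps f (swap o i * swap k l)) / 2 := by
  simp only [xx, if_true, if_neg hkl]
  have e : ∀ x : Perm α, f (swap o i * x) *
      ((f (swap o k * x) + f (swap o l * x) - f (swap k l * x)) / 2) =
      (f (swap o i * x) * f (swap o k * x) + f (swap o i * x) * f (swap o l * x) -
        f (swap o i * x) * f (swap k l * x)) / 2 := fun x => by ring
  simp_rw [e]
  rw [← Finset.sum_div, Finset.sum_sub_distrib, Finset.sum_add_distrib, ip_eq, ip_eq, ip_eq,
    swap_inv, swap_inv, swap_inv]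

lemma ip_nn (f : Perm α → ℝ) (o : α) {i j k l : α} (hij : i ≠ j) (hkl : k ≠ l) :
    ∑ x, xx f o i j x * xx f o k l x =
      (ps f (swap o i * swap o k) + ps f (swap o i * swap o l) - ps f (swap o i * swap k l) +
      ps f (swap o j * swap o k) + ps f (swap o j * swap o l) - ps f (swap o j * swap k l) -
      ps f (swap i j * swap o k) - ps f (swap i j * swap o l) + ps f (swap i j * swap k l)) / 4 := by
  simp only [xx, if_neg hij, if_neg hkl]
  have e : ∀ x : Perm α, (f (swap o i * x) + f (swap o j * x) - f (swap i j * x)) / 2 *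
      ((f (swap o k * x) + f (swap o l * x) - f (swap k l * x)) / 2) =
      (f (swap o i * x) * f (swap o k * x) + f (swap o i * x) * f (swap o l * x) -
        f (swap o i * x) * f (swap k l * x) + f (swap o j * x) * f (swap o k * x) +
        f (swap o j * x) * f (swap o l * x) - f (swap o j * x) * f (swap k l * x) -
        f (swap i j * x) * f (swap o k * x) - f (swap i j * x) * f (swap o l * x) +
        f (swap i j * x) * f (swap k l * x)) / 4 := fun x => by ring
  simp_rw [e]
  rw [← Finset.sum_div]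
  simp only [Finset.sum_sub_distrib, Finset.sum_add_distrib, ip_eq, swap_inv]

lemma SS_1111 (f : Perm α → ℝ) (o i : α) : SS f o i i i i = 0 := by
  unfold SS dd
  rw [ip_ee, swap_mul_self]
  simp [al]

lemma SS_1112 (f : Perm α → ℝ) {o i l : α} (hi : o ≠ i) (hl : o ≠ l) (hil : i ≠ l) :
    SS f o i i i l = 0 := by
  unfold SS
  rw [dd_symm3 f o i l i i]
  unfold dd
  rw [ip_en f o i hil, swap_mul_self, cyc3 hi hl hil, ps_comm f o l o i]
  simp only [al, if_true, if_neg hil]
  ring

lemma SS_1122 (f : Perm α → ℝ) {o i k : α} (hi : o ≠ i) (hk : o ≠ k) (hik : i ≠ k) :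
    SS f o i i k k = 0 := by
  unfold SS dd
  rw [ip_ee, ip_nn f o hik hik]
  have e1 : ps f (swap o i * swap i k) = ps f (swap o i * swap o k) := by
    rw [cyc3 hi hk hik, ps_comm]
  have e2 : ps f (swap o k * swap i k) = ps f (swap o i * swap o k) := by
    rw [swap_comm i k, cyc3 hk hi hik.symm]
  have e3 : ps f (swap i k * swap o i) = ps f (swap o i * swap o k) := by
    rw [ps_comm, e1]
  have e4 : ps f (swap i k * swap o k) = ps f (swap o i * swap o k) := by
    rw [ps_comm, e2]
  rw [e1, e2, e3, e4, ps_comm f o k o i]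
  simp only [swap_mul_self, al, if_true, if_neg hik]
  ring

lemma SS_1123 (f : Perm α → ℝ) {o i k l : α} (hi : o ≠ i) (hk : o ≠ k) (hl : o ≠ l) (hik : i ≠ k)
    (hil : i ≠ l) (hkl : k ≠ l) : 0 ≤ SS f o i i k l := by
  unfold SS dd
  rw [ip_en f o i hkl, ip_nn f o hik hil, ip_nn f o hil hik]
  have h := psd4 f hi hk hl hik hil hkl
  have e1 : ps f (swap o k * swap o i) = ps f (swap o i * swap o k) := ps_comm _ _ _ _ _
  have e2 : ps f (swap o l * swap o i) = ps f (swap o i * swap o l) := ps_comm _ _ _ _ _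
  have e3 : ps f (swap o l * swap o k) = ps f (swap o k * swap o l) := ps_comm _ _ _ _ _
  have e4 : ps f (swap i l * swap i k) = ps f (swap i k * swap i l) := ps_comm _ _ _ _ _
  have e5 : ps f (swap o i * swap i l) = ps f (swap o i * swap o l) := by
    rw [cyc3 hi hl hil, e2]
  have e6 : ps f (swap i k * swap o i) = ps f (swap o i * swap o k) := by
    rw [ps_comm, cyc3 hi hk hik, e1]
  have e7 : ps f (swap i k * swap o l) = ps f (swap o l * swap i k) := ps_comm _ _ _ _ _
  have e8 : ps f (swap o i * swap i k) = ps f (swap o i * swap o k) := by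
    rw [cyc3 hi hk hik, e1]
  have e9 : ps f (swap i l * swap o i) = ps f (swap o i * swap o l) := by
    rw [ps_comm, e5]
  have e10 : ps f (swap i l * swap o k) = ps f (swap o k * swap i l) := ps_comm _ _ _ _ _
  rw [e1, e2, e3, e4] at h
  rw [e1, e2, e3, e4, e5, e6, e7, e8, e9, e10]
  simp only [swap_mul_self, al, if_true, if_neg hik, if_neg hil, if_neg hkl]
  linarith

lemma SS_1234 (f : Perm α → ℝ) {o i j k l : α} (h1 : o ≠ i) (h2 : o ≠ j) (h3 : o ≠ k) (h4 : o ≠ l)
    (h5 : i ≠ j) (h6 : i ≠ k) (h7 : i ≠ l) (h8 : j ≠ k) (h9 : j ≠ l) (h10 : k ≠ l) :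
    0 ≤ SS f o i j k l := by
  unfold SS dd
  rw [ip_nn f o h5 h10, ip_nn f o h6 h9, ip_nn f o h7 h8]
  have h := psd5 f h1 h2 h3 h4 h5 h6 h7 h8 h9 h10
  have e1 : ps f (swap o j * swap o i) = ps f (swap o i * swap o j) := ps_comm _ _ _ _ _
  have e2 : ps f (swap o k * swap o i) = ps f (swap o i * swap o k) := ps_comm _ _ _ _ _
  have e3 : ps f (swap o l * swap o i) = ps f (swap o i * swap o l) := ps_comm _ _ _ _ _
  have e4 : ps f (swap o k * swap o j) = ps f (swap o j * swap o k) := ps_comm _ _ _ _ _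
  have e5 : ps f (swap o l * swap o j) = ps f (swap o j * swap o l) := ps_comm _ _ _ _ _
  have e6 : ps f (swap o l * swap o k) = ps f (swap o k * swap o l) := ps_comm _ _ _ _ _
  have g1 : ps f (swap i j * swap o k) = ps f (swap o k * swap i j) := ps_comm _ _ _ _ _
  have g2 : ps f (swap i j * swap o l) = ps f (swap o l * swap i j) := ps_comm _ _ _ _ _
  have g3 : ps f (swap i k * swap o j) = ps f (swap o j * swap i k) := ps_comm _ _ _ _ _
  have g4 : ps f (swap i k * swap o l) = ps f (swap o l * swap i k) := ps_comm _ _ _ _ _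
  have g5 : ps f (swap i l * swap o j) = ps f (swap o j * swap i l) := ps_comm _ _ _ _ _
  have g6 : ps f (swap i l * swap o k) = ps f (swap o k * swap i l) := ps_comm _ _ _ _ _
  rw [e1, e2, e3, e4, e5, e6] at h
  rw [e4, e5, e6, g1, g2, g3, g4, g5, g6]
  simp only [al, if_neg h5, if_neg h6, if_neg h7, if_neg h8, if_neg h9, if_neg h10]
  linarith

/-- if the first two indices agree -/
lemma SS_eq (f : Perm α → ℝ) {o i k l : α} (hi : o ≠ i) (hk : o ≠ k) (hl : o ≠ l) :
    0 ≤ SS f o i i k l := by
  by_cases hik : i = k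
  · subst hik
    by_cases hil : i = l
    · subst hil
      rw [SS_1111]
    · rw [SS_1112 f hi hl hil]
  · by_cases hil : i = l
    · subst hil
      rw [SS_34, SS_1112 f hi hk hik]
    · by_cases hkl : k = l
      · subst hkl
        rw [SS_1122 f hi hk hik]
      · exact SS_1123 f hi hk hl hik hil hkl

theorem SS_nonneg (f : Perm α → ℝ) {o i j k l : α} (hi : o ≠ i) (hj : o ≠ j) (hk : o ≠ k)
    (hl : o ≠ l) : 0 ≤ SS f o i j k l := by
  by_cases hij : i = j
  · subst hij; exact SS_eq f hi hk hl
  by_cases hik : i = k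
  · subst hik; rw [SS_23]; exact SS_eq f hi hj hl
  by_cases hil : i = l
  · subst hil; rw [SS_34, SS_23]; exact SS_eq f hi hj hk
  by_cases hjk : j = k
  · subst hjk; rw [SS_12, SS_23]; exact SS_eq f hj hi hl
  by_cases hjl : j = l
  · subst hjl; rw [SS_34, SS_12, SS_23]; exact SS_eq f hj hi hk
  by_cases hkl : k = l
  · subst hkl
    rw [SS_23, SS_34, SS_12, SS_23]
    exact SS_eq f hk hi hj
  exact SS_1234 f hi hj hk hl hij hik hil hjk hjl hkl

end Pool.Agent.Helper353.Oct
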