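import Mathlib

/-!
Heat kernels of symmetric generators on finite sets.
-/

open scoped BigOperators Matrix

namespace Pool.Agent.Helper353.Oct

variable {X : Type*} [Fintype X] [DecidableEq X]

/-- symmetric Markov generators -/
structure Gen (Q : Matrix X X ℝ) : Prop where
  symm : ∀ x y, Q x y = Q y x
  off : ∀ x y, x ≠ y → 0 ≤ Q x y
  row : ∀ x, ∑ y, Q x y = 0

/-- the heat kernel -/
noncomputable def Kt (Q : Matrix X X ℝ) (t : ℝ) : Matrix X X ℝ := NormedSpace.exp (t • Q)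

lemma Kt_zero (Q : Matrix X X ℝ) : Kt Q 0 = 1 := by
  unfold Kt
  rw [zero_smul, NormedSpace.exp_zero]

lemma Kt_add (Q : Matrix X X ℝ) (s t : ℝ) : Kt Q (s + t) = Kt Q s * Kt Q t := by
  unfold Kt
  rw [add_smul]
  exact Matrix.exp_add_of_commute _ _ (((Commute.refl Q).smul_left s).smul_right t)

lemma Kt_symm {Q : Matrix X X ℝ} (h : Gen Q) (t : ℝ) (x y : X) : Kt Q t x y = Kt Q t y x := by
  have h1 : Qᵀ = Q := by
    ext a b
    rw [Matrix.transpose_apply, h.symm]
  have h2 : (Kt Q t)ᵀ = Kt Q t := by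
    unfold Kt
    rw [← Matrix.exp_transpose, Matrix.transpose_smul, h1]
  have := congrFun (congrFun h2 y) x
  rw [Matrix.transpose_apply] at this
  exact this

lemma exp_hasSum (M : Matrix X X ℝ) (x y : X) :
    HasSum (fun k : ℕ => ((k.factorial : ℝ)⁻¹) * (M ^ k) x y) (NormedSpace.exp M x y) := by
  have h1 : HasSum (fun k : ℕ => ((k.factorial : ℝ)⁻¹) • M ^ k) (NormedSpace.exp M) := by
    open scoped Matrix.Norms.Operator in
    exact NormedSpace.exp_series_hasSum_exp' (𝕂 := ℝ) M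
  have h2 := (Pi.hasSum.1 (Pi.hasSum.1 h1 x)) y
  simpa using h2

lemma exp_nonneg' {M : Matrix X X ℝ} (hM : ∀ x y, 0 ≤ M x y) (x y : X) :
    0 ≤ NormedSpace.exp M x y := by
  refine (exp_hasSum M x y).nonneg fun k => ?_
  have h1 : ∀ k : ℕ, ∀ x y, 0 ≤ (M ^ k) x y := by
    intro k
    induction k with
    | zero =>
      intro x y
      rw [pow_zero, Matrix.one_apply]
      split_ifs <;> norm_num
    | succ k ih =>
      intro x y
      rw [pow_succ, Matrix.mul_apply]
      exact Finset.sum_nonneg fun z _ => mul_nonneg (ih x z) (hM z y)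
  have := h1 k x y
  positivity

lemma Kt_eq (Q : Matrix X X ℝ) (D t : ℝ) :
    Kt Q t = Real.exp (-(t * D)) • NormedSpace.exp (t • (Q + D • (1 : Matrix X X ℝ))) := by
  have h1 : t • Q = (-(t * D)) • (1 : Matrix X X ℝ) + t • (Q + D • (1 : Matrix X X ℝ)) := by
    rw [smul_add, smul_smul, neg_smul]
    abel
  unfold Kt
  rw [h1, Matrix.exp_add_of_commute _ _ ((Commute.one_left _).smul_left _)]
  have h2 : NormedSpace.exp ((-(t * D)) • (1 : Matrix X X ℝ)) =
      Real.exp (-(t * D)) • (1 : Matrix X X ℝ) := by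
    rw [Matrix.smul_one_eq_diagonal, Matrix.smul_one_eq_diagonal, Matrix.exp_diagonal]
    congr 1
    ext i
    rw [Pi.coe_exp, Real.exp_eq_exp_ℝ]
  rw [h2, smul_mul_assoc, one_mul]

lemma exists_bound (Q : Matrix X X ℝ) : ∃ D : ℝ, 0 ≤ D ∧ ∀ x, -D ≤ Q x x := by
  refine ⟨∑ x, |Q x x|, Finset.sum_nonneg fun _ _ => abs_nonneg _, fun x => ?_⟩
  have h1 : |Q x x| ≤ ∑ x, |Q x x| :=
    Finset.single_le_sum (f := fun x => |Q x x|) (fun _ _ => abs_nonneg _) (Finset.mem_univ x)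
  have h2 := neg_abs_le (Q x x)
  linarith

lemma Kt_nonneg {Q : Matrix X X ℝ} (h : Gen Q) {t : ℝ} (ht : 0 ≤ t) (x y : X) :
    0 ≤ Kt Q t x y := by
  obtain ⟨D, hD0, hD⟩ := exists_bound Q
  rw [Kt_eq Q D t, Matrix.smul_apply, smul_eq_mul]
  refine mul_nonneg (Real.exp_pos _).le (exp_nonneg' (fun a b => ?_) x y)
  rw [Matrix.smul_apply, Matrix.add_apply, Matrix.smul_apply, smul_eq_mul, smul_eq_mul]
  refine mul_nonneg ht ?_
  rw [Matrix.one_apply]
  split_ifs with hab
  · subst hab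
    have := hD a
    linarith
  · have := h.off a b hab
    linarith

lemma Kt_row {Q : Matrix X X ℝ} (h : Gen Q) (t : ℝ) (x : X) : ∑ y, Kt Q t x y = 1 := by
  have h1 : HasSum (fun k : ℕ => ∑ y, ((k.factorial : ℝ)⁻¹) * ((t • Q) ^ k) x y)
      (∑ y, Kt Q t x y) := hasSum_sum fun y _ => exp_hasSum (t • Q) x y
  have h2 : ∀ k : ℕ, ∑ y, ((k.factorial : ℝ)⁻¹) * ((t • Q) ^ k) x y = if k = 0 then 1 else 0 := by
    intro k
    rw [← Finset.mul_sum]
    cases k with
    | zero => simp [Matrix.one_apply]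
    | succ k =>
      have : ∑ y, ((t • Q) ^ (k + 1)) x y = 0 := by
        rw [pow_succ]
        simp_rw [Matrix.mul_apply]
        rw [Finset.sum_comm]
        refine Finset.sum_eq_zero fun z _ => ?_
        rw [← Finset.mul_sum]
        simp only [Matrix.smul_apply, smul_eq_mul]
        rw [← Finset.mul_sum, h.row, mul_zero, mul_zero]
      rw [this, mul_zero, if_neg (Nat.succ_ne_zero k)]
  simp_rw [h2] at h1
  have h3 : HasSum (fun k : ℕ => if k = 0 then (1 : ℝ) else 0) 1 := hasSum_ite_eq 0 1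
  exact h1.unique h3

lemma Kt_hasDerivAt (Q : Matrix X X ℝ) (t : ℝ) (x y : X) :
    HasDerivAt (fun s => Kt Q s x y) ((Kt Q t * Q) x y) t := by
  have h1 : HasDerivAt (fun s : ℝ => NormedSpace.exp (s • Q)) (NormedSpace.exp (t • Q) * Q) t := by
    open scoped Matrix.Norms.Operator in
    exact hasDerivAt_exp_smul_const (𝕂 := ℝ) Q t
  have h2 := hasDerivAt_pi.1 (hasDerivAt_pi.1 h1 x) y
  exact h2

end Pool.Agent.Helper353.Oct
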